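import Mathlib

set_option autoImplicit false

/-! # Project GX: pairs and cells -/

namespace Pool.Agent.Q237.GX.Cells

open Finset

noncomputable section

variable {ι : Type*} [DecidableEq ι] (mu : ι → ℝ) (κ : ι → ℤ)

/-- the mass in the cell `k` -/
def Nk (A : Finset ι) (k : ℤ) : ℝ := ∑ i ∈ A with κ i = k, mu i

/-- the sum of the squares of the masses -/
def P (A : Finset ι) : ℝ := ∑ k ∈ A.image κ, Nk mu κ A k ^ 2

omit [DecidableEq ι] in
theorem Nk_zero (A : Finset ι) {k : ℤ} (h : k ∉ A.image κ) : Nk mu κ A k = 0 := by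
  unfold Nk
  rw [Finset.filter_eq_empty_iff.2]
  · simp
  · intro i hi h1
    exact h (Finset.mem_image.2 ⟨i, hi, h1⟩)

omit [DecidableEq ι] in
theorem P_eq (A : Finset ι) {K : Finset ℤ} (h : A.image κ ⊆ K) : P mu κ A = ∑ k ∈ K, Nk mu κ A k ^ 2 := by
  unfold P
  refine Finset.sum_subset h fun k _ hk => ?_
  rw [Nk_zero mu κ A hk]
  simp

omit [DecidableEq ι] in
theorem P_nonneg (A : Finset ι) : 0 ≤ P mu κ A := Finset.sum_nonneg fun _ _ => sq_nonneg _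

theorem Nk_union {A B : Finset ι} (h : Disjoint A B) (k : ℤ) :
    Nk mu κ (A ∪ B) k = Nk mu κ A k + Nk mu κ B k := by
  unfold Nk
  rw [Finset.filter_union, Finset.sum_union]
  exact Finset.disjoint_filter_filter h

theorem P_union {A B : Finset ι} (h : Disjoint A B) {δ : ℝ} (hδ : 0 < δ) :
    P mu κ (A ∪ B) ≤ (1 + δ) * P mu κ A + (1 + 1 / δ) * P mu κ B := by
  set K := (A ∪ B).image κ with hK
  have hA : A.image κ ⊆ K := Finset.image_subset_image Finset.subset_union_left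
  have hB : B.image κ ⊆ K := Finset.image_subset_image Finset.subset_union_right
  rw [P_eq mu κ (A ∪ B) (le_refl K), P_eq mu κ A hA, P_eq mu κ B hB, Finset.mul_sum, Finset.mul_sum,
    ← Finset.sum_add_distrib]
  refine Finset.sum_le_sum fun k _ => ?_
  rw [Nk_union mu κ h]
  set a := Nk mu κ A k
  set b := Nk mu κ B k
  have h1 : 0 ≤ (δ * a - b) ^ 2 / δ := by positivity
  have h2 : (δ * a - b) ^ 2 / δ = δ * a ^ 2 - 2 * (a * b) + 1 / δ * b ^ 2 := by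
    field_simp
    ring
  nlinarith

omit [DecidableEq ι] in
theorem sum_Nk (A : Finset ι) {K : Finset ℤ} (h : A.image κ ⊆ K) : ∑ k ∈ K, Nk mu κ A k = ∑ i ∈ A, mu i := by
  unfold Nk
  exact Finset.sum_fiberwise_of_maps_to (fun i hi => h (Finset.mem_image_of_mem κ hi)) _

omit [DecidableEq ι] in
theorem Nk_nonneg (hmu : ∀ i, 0 ≤ mu i) (A : Finset ι) (k : ℤ) : 0 ≤ Nk mu κ A k :=
  Finset.sum_nonneg fun i _ => hmu i

omit [DecidableEq ι] in
theorem P_le_sq (hmu : ∀ i, 0 ≤ mu i) (A : Finset ι) : P mu κ A ≤ (∑ i ∈ A, mu i) ^ 2 := by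
  rw [← sum_Nk mu κ A (le_refl _)]
  unfold P
  rw [sq, Finset.sum_mul]
  refine Finset.sum_le_sum fun k hk => ?_
  rw [sq]
  exact mul_le_mul_of_nonneg_left (Finset.single_le_sum (fun l _ => Nk_nonneg mu κ hmu A l) hk) (Nk_nonneg mu κ hmu A k)

omit [DecidableEq ι] in
/-- sums over pairs in terms of cells -/
theorem pair_cells (A : Finset ι) (f : ℤ → ℤ → ℝ) :
    ∑ i ∈ A, ∑ j ∈ A, mu i * mu j * f (κ i) (κ j) =
      ∑ k ∈ A.image κ, ∑ l ∈ A.image κ, Nk mu κ A k * Nk mu κ A l * f k l := by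
  have h1 : ∀ (g : ι → ℝ) (F : ℤ → ℝ), ∑ i ∈ A, g i * F (κ i) = ∑ k ∈ A.image κ, (∑ i ∈ A with κ i = k, g i) * F k := by
    intro g F
    rw [← Finset.sum_fiberwise_of_maps_to (g := κ) (fun i hi => Finset.mem_image_of_mem κ hi) (fun i => g i * F (κ i))]
    refine Finset.sum_congr rfl fun k _ => ?_
    rw [Finset.sum_mul]
    refine Finset.sum_congr rfl fun i hi => ?_
    rw [(Finset.mem_filter.1 hi).2]
  have h2 : ∀ i ∈ A, ∑ j ∈ A, mu i * mu j * f (κ i) (κ j) = mu i * ∑ l ∈ A.image κ, Nk mu κ A l * f (κ i) l := by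
    intro i _
    have := h1 mu (fun l => f (κ i) l)
    unfold Nk
    rw [← this, Finset.mul_sum]
    refine Finset.sum_congr rfl fun j _ => by ring
  rw [Finset.sum_congr rfl h2, h1 mu (fun k => ∑ l ∈ A.image κ, Nk mu κ A l * f k l)]
  refine Finset.sum_congr rfl fun k _ => ?_
  rw [Finset.mul_sum]
  refine Finset.sum_congr rfl fun l _ => ?_
  unfold Nk
  ring

omit [DecidableEq ι] in
theorem P_pairs (A : Finset ι) :
    P mu κ A = ∑ i ∈ A, ∑ j ∈ A, mu i * mu j * (if κ i = κ j then 1 else 0) := by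
  rw [pair_cells mu κ A (fun k l => if k = l then 1 else 0)]
  unfold P
  refine Finset.sum_congr rfl fun k hk => ?_
  rw [Finset.sum_eq_single k]
  · simp only [if_true]
    ring
  · intro l _ hl
    rw [if_neg (Ne.symm hl)]
    ring
  · intro h
    exact absurd hk h

theorem summable_w : Summable fun m : ℤ => (1 : ℝ) / (1 + (m : ℝ) ^ 2) := by
  have h1 : Summable fun m : ℤ => (1 : ℝ) / (m : ℝ) ^ 2 := by
    simpa using (Real.summable_one_div_int_pow (p := 2)).2 (by norm_num)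
  have h2 : Summable fun m : ℤ => if m = 0 then (1 : ℝ) else 0 := by
    refine summable_of_ne_finset_zero (s := {0}) fun m hm => ?_
    simp only [Finset.mem_singleton] at hm
    simp [hm]
  refine Summable.of_nonneg_of_le (fun m => by positivity) (fun m => ?_) (h1.add h2)
  by_cases hm : m = 0
  · simp [hm]
  · simp only [if_neg hm, add_zero]
    have hm2 : (0 : ℝ) < (m : ℝ) ^ 2 := by
      have : (m : ℝ) ≠ 0 := by exact_mod_cast hm
      positivity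
    exact one_div_le_one_div_of_le hm2 (by linarith)

/-- the constant -/
def cW : ℝ := ∑' m : ℤ, (1 : ℝ) / (1 + (m : ℝ) ^ 2)

theorem cW_pos : 0 < cW := by
  have h := summable_w.sum_le_tsum {0} fun m _ => by positivity
  simp at h
  unfold cW
  have e : (∑' m : ℤ, (1 : ℝ) / (1 + (m : ℝ) ^ 2)) = ∑' b : ℤ, (1 + (b : ℝ) ^ 2)⁻¹ := by
    simp only [one_div]
  rw [e]
  linarith

theorem sum_w_le (K : Finset ℤ) (k : ℤ) : ∑ l ∈ K, (1 : ℝ) / (1 + ((k : ℝ) - l) ^ 2) ≤ cW := by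
  have h1 : ∑ l ∈ K, (1 : ℝ) / (1 + ((k : ℝ) - l) ^ 2) = ∑ m ∈ K.image (fun l => k - l), (1 : ℝ) / (1 + (m : ℝ) ^ 2) := by
    rw [Finset.sum_image]
    · refine Finset.sum_congr rfl fun l _ => ?_
      push_cast
      rfl
    · intro a _ b _ hab
      simpa using hab
  rw [h1]
  exact summable_w.sum_le_tsum _ fun m _ => by positivity

omit [DecidableEq ι] in
/-- all pairs, with weights decaying with the distance of the cells -/
theorem big (hmu : ∀ i, 0 ≤ mu i) (A : Finset ι) (w : ι → ι → ℝ) {B : ℝ} (hB : 0 ≤ B)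
    (hw : ∀ i ∈ A, ∀ j ∈ A, w i j ≤ B / (1 + ((κ i : ℝ) - κ j) ^ 2)) :
    ∑ i ∈ A, ∑ j ∈ A, mu i * mu j * w i j ≤ B * cW * P mu κ A := by
  have h1 : ∑ i ∈ A, ∑ j ∈ A, mu i * mu j * w i j ≤
      ∑ i ∈ A, ∑ j ∈ A, mu i * mu j * (fun k l : ℤ => B / (1 + ((k : ℝ) - l) ^ 2)) (κ i) (κ j) := by
    refine Finset.sum_le_sum fun i hi => Finset.sum_le_sum fun j hj => ?_
    exact mul_le_mul_of_nonneg_left (hw i hi j hj) (mul_nonneg (hmu i) (hmu j))
  refine h1.trans ?_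
  rw [pair_cells mu κ A (fun k l : ℤ => B / (1 + ((k : ℝ) - l) ^ 2))]
  set K := A.image κ with hK
  have h2 : ∑ k ∈ K, ∑ l ∈ K, Nk mu κ A k * Nk mu κ A l * (B / (1 + ((k : ℝ) - l) ^ 2)) ≤
      ∑ k ∈ K, ∑ l ∈ K, ((Nk mu κ A k ^ 2 / 2) * (B / (1 + ((k : ℝ) - l) ^ 2)) +
        (Nk mu κ A l ^ 2 / 2) * (B / (1 + ((l : ℝ) - k) ^ 2))) := by
    refine Finset.sum_le_sum fun k _ => Finset.sum_le_sum fun l _ => ?_
    have e : ((l : ℝ) - k) ^ 2 = ((k : ℝ) - l) ^ 2 := by ring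
    rw [e, ← add_mul]
    have h3 : 0 ≤ B / (1 + ((k : ℝ) - l) ^ 2) := by positivity
    refine mul_le_mul_of_nonneg_right ?_ h3
    nlinarith [sq_nonneg (Nk mu κ A k - Nk mu κ A l)]
  refine h2.trans ?_
  have h4 : ∑ k ∈ K, ∑ l ∈ K, ((Nk mu κ A k ^ 2 / 2) * (B / (1 + ((k : ℝ) - l) ^ 2)) +
        (Nk mu κ A l ^ 2 / 2) * (B / (1 + ((l : ℝ) - k) ^ 2))) =
      2 * ∑ k ∈ K, (Nk mu κ A k ^ 2 / 2) * (B * ∑ l ∈ K, (1 / (1 + ((k : ℝ) - l) ^ 2))) := by
    simp_rw [Finset.sum_add_distrib]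
    rw [Finset.sum_comm (f := fun k l : ℤ => (Nk mu κ A l ^ 2 / 2) * (B / (1 + ((l : ℝ) - k) ^ 2)))]
    rw [← two_mul]
    congr 1
    refine Finset.sum_congr rfl fun k _ => ?_
    rw [Finset.mul_sum, Finset.mul_sum]
    refine Finset.sum_congr rfl fun l _ => by ring
  rw [h4]
  unfold P
  rw [Finset.mul_sum, Finset.mul_sum]
  refine Finset.sum_le_sum fun k _ => ?_
  have h5 := sum_w_le K k
  have h6 : 0 ≤ Nk mu κ A k ^ 2 := sq_nonneg _
  calc 2 * (Nk mu κ A k ^ 2 / 2 * (B * ∑ l ∈ K, 1 / (1 + ((k : ℝ) - l) ^ 2)))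
      ≤ 2 * (Nk mu κ A k ^ 2 / 2 * (B * cW)) := by gcongr
    _ = B * cW * Nk mu κ A k ^ 2 := by ring

/-- a union of families -/
theorem P_sigma {α : Type*} [Fintype α] [DecidableEq α] {β : α → Type*} [∀ a, DecidableEq (β a)]
    (mu : (Σ a, β a) → ℝ) (κ : (Σ a, β a) → ℤ)
    (A : (a : α) → Finset (β a)) :
    P mu κ (Finset.univ.sigma A) ≤ Fintype.card α * ∑ a, P (fun b => mu ⟨a, b⟩) (fun b => κ ⟨a, b⟩) (A a) := by
  set K := (Finset.univ.sigma A).image κ with hK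
  have hsub : ∀ a, (A a).image (fun b => κ ⟨a, b⟩) ⊆ K := by
    intro a k hk
    obtain ⟨b, hb, rfl⟩ := Finset.mem_image.1 hk
    exact Finset.mem_image.2 ⟨⟨a, b⟩, Finset.mem_sigma.2 ⟨Finset.mem_univ a, hb⟩, rfl⟩
  have h1 : ∀ k, Nk mu κ (Finset.univ.sigma A) k = ∑ a, Nk (fun b => mu ⟨a, b⟩) (fun b => κ ⟨a, b⟩) (A a) k := by
    intro k
    unfold Nk
    rw [Finset.sum_filter, Finset.sum_sigma]
    refine Finset.sum_congr rfl fun a _ => ?_
    rw [Finset.sum_filter]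
  rw [P_eq mu κ _ (le_refl K)]
  have h2 : ∀ a, P (fun b => mu ⟨a, b⟩) (fun b => κ ⟨a, b⟩) (A a) =
      ∑ k ∈ K, Nk (fun b => mu ⟨a, b⟩) (fun b => κ ⟨a, b⟩) (A a) k ^ 2 := fun a => P_eq _ _ _ (hsub a)
  simp_rw [h2]
  rw [Finset.sum_comm, Finset.mul_sum]
  refine Finset.sum_le_sum fun k _ => ?_
  rw [h1]
  exact sq_sum_le_card_mul_sum_sq

end

end Pool.Agent.Q237.GX.Cells
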