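import Pool.Agent.Q237.GX.Zer

set_option autoImplicit false

/-! # Project GX, job CNT: the number of zeros -/

namespace Pool.Agent.Q237.GX

open MeasureTheory Filter Topology Set Complex DirichletCharacter
open Pool.Agent.Q260.GX
open H370 (zset mult NN Zf GoodL)

noncomputable section

theorem dyadic_bound {f : ℝ → ℝ} (hmono : Monotone f) (h0 : ∀ T, 0 ≤ f T) {T0 C : ℝ} (hT0 : 1 ≤ T0) (hC : 0 ≤ C)
    (h : ∀ T : ℝ, T0 ≤ T → |f (2 * T) - f T - T * Real.log T / (2 * Real.pi)| ≤ C * T) :
    ∃ M : ℝ, ∀ T : ℝ, T0 ≤ T → |f T - T * Real.log T / (2 * Real.pi)| ≤ (C + 1) * T + M := by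
  have hpi : 6 ≤ 2 * Real.pi := by linarith [Real.pi_gt_three]
  refine ⟨f (2 * T0) + (2 * T0) * Real.log (2 * T0), ?_⟩
  have key : ∀ k : ℕ, ∀ T : ℝ, T0 ≤ T → T < 2 ^ (k + 1) * T0 →
      |f T - T * Real.log T / (2 * Real.pi)| ≤ (C + 1) * T + (f (2 * T0) + (2 * T0) * Real.log (2 * T0)) := by
    intro k
    induction k with
    | zero =>
      intro T h1 h2
      have h2' : T ≤ 2 * T0 := by
        have e : (2 : ℝ) ^ (0 + 1) * T0 = 2 * T0 := by ring
        rw [e] at h2
        exact h2.le
      have h3 : f T ≤ f (2 * T0) := hmono h2'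
      have h4 : 0 ≤ Real.log T := Real.log_nonneg (by linarith)
      have h5 : Real.log T ≤ Real.log (2 * T0) := Real.log_le_log (by linarith) h2'
      have h6 : 0 ≤ T * Real.log T := mul_nonneg (by linarith) h4
      have h7 : T * Real.log T ≤ (2 * T0) * Real.log (2 * T0) := by
        refine mul_le_mul h2' h5 h4 (by linarith)
      have h8 : T * Real.log T / (2 * Real.pi) ≤ T * Real.log T := div_le_self h6 (by linarith)
      have h9 : 0 ≤ T * Real.log T / (2 * Real.pi) := by positivity
      have h10 := h0 T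
      have h11 : 0 ≤ (C + 1) * T := by
        have : 0 ≤ T := by linarith
        positivity
      rw [abs_le]
      constructor <;> linarith [h0 (2 * T0)]
    | succ k ih =>
      intro T h1 h2
      rcases lt_or_ge T (2 * T0) with h3 | h3
      · refine ih T h1 (h3.trans_le ?_)
        have : (1 : ℝ) ≤ 2 ^ k := one_le_pow₀ (by norm_num)
        have e : (2 : ℝ) ^ (k + 1) * T0 = 2 * (2 ^ k * T0) := by ring
        rw [e]
        nlinarith
      · have h4 : T0 ≤ T / 2 := by linarith
        have h5 : T / 2 < 2 ^ (k + 1) * T0 := by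
          have e : (2 : ℝ) ^ (k + 1 + 1) * T0 = 2 * (2 ^ (k + 1) * T0) := by ring
          rw [e] at h2
          linarith
        have h6 := ih (T / 2) h4 h5
        have h7 := h (T / 2) h4
        have e2 : 2 * (T / 2) = T := by ring
        rw [e2] at h7
        have hT : 0 < T := by linarith
        have h8 : Real.log (T / 2) = Real.log T - Real.log 2 := Real.log_div hT.ne' two_ne_zero
        have h9 : T * Real.log T / (2 * Real.pi) =
            (T / 2) * Real.log (T / 2) / (2 * Real.pi) + (T / 2) * Real.log (T / 2) / (2 * Real.pi) +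
              T * Real.log 2 / (2 * Real.pi) := by
          rw [h8]
          field_simp
          ring
        have h10 : |T * Real.log 2 / (2 * Real.pi)| ≤ T / 2 := by
          have hl : Real.log 2 ≤ 1 := by linarith [Real.log_two_lt_d9]
          have hl0 : 0 ≤ Real.log 2 := Real.log_nonneg (by norm_num)
          rw [abs_of_nonneg (by positivity), div_le_iff₀ (by linarith)]
          nlinarith
        have h11 : f T - T * Real.log T / (2 * Real.pi) =
            (f T - f (T / 2) - (T / 2) * Real.log (T / 2) / (2 * Real.pi)) +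
            (f (T / 2) - (T / 2) * Real.log (T / 2) / (2 * Real.pi)) - T * Real.log 2 / (2 * Real.pi) := by
          rw [h9]
          ring
        rw [h11]
        have a1 := abs_sub ((f T - f (T / 2) - (T / 2) * Real.log (T / 2) / (2 * Real.pi)) +
            (f (T / 2) - (T / 2) * Real.log (T / 2) / (2 * Real.pi))) (T * Real.log 2 / (2 * Real.pi))
        have a2 := abs_add_le (f T - f (T / 2) - (T / 2) * Real.log (T / 2) / (2 * Real.pi))
            (f (T / 2) - (T / 2) * Real.log (T / 2) / (2 * Real.pi))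
        linarith
  intro T hT
  obtain ⟨k, hk⟩ := pow_unbounded_of_one_lt (T / T0) (show (1 : ℝ) < 2 by norm_num)
  refine key k T hT ?_
  have h1 : T < 2 ^ k * T0 := by
    rwa [div_lt_iff₀ (by linarith)] at hk
  refine h1.trans_le ?_
  have : (0 : ℝ) ≤ 2 ^ k * T0 := by positivity
  rw [pow_succ]
  linarith

theorem dyadic_lim {f : ℝ → ℝ} (hmono : Monotone f) (h0 : ∀ T, 0 ≤ f T) {T0 C : ℝ} (hT0 : 1 ≤ T0) (hC : 0 ≤ C)
    (h : ∀ T : ℝ, T0 ≤ T → |f (2 * T) - f T - T * Real.log T / (2 * Real.pi)| ≤ C * T) :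
    Tendsto (fun T => f T / (T * Real.log T)) atTop (𝓝 (1 / (2 * Real.pi))) := by
  obtain ⟨M, hM⟩ := dyadic_bound hmono h0 hT0 hC h
  rw [tendsto_iff_norm_sub_tendsto_zero]
  have h1 : Tendsto (fun T : ℝ => ((C + 1) + |M|) / Real.log T) atTop (𝓝 0) :=
    Tendsto.div_atTop tendsto_const_nhds Real.tendsto_log_atTop
  refine squeeze_zero' (Eventually.of_forall fun _ => norm_nonneg _) ?_ h1
  filter_upwards [eventually_ge_atTop T0, eventually_gt_atTop 1] with T hT hT1
  have hl : 0 < Real.log T := Real.log_pos hT1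
  have hT0' : 0 < T := by linarith
  have e : f T / (T * Real.log T) - 1 / (2 * Real.pi) = (f T - T * Real.log T / (2 * Real.pi)) / (T * Real.log T) := by
    have hp : Real.pi ≠ 0 := Real.pi_ne_zero
    field_simp
  rw [e, norm_div, Real.norm_eq_abs, Real.norm_of_nonneg (by positivity : 0 ≤ T * Real.log T),
    div_le_div_iff₀ (by positivity) hl]
  have h2 := hM T hT
  have h3 : M ≤ |M| * T := by
    have := le_abs_self M
    have h4 := abs_nonneg M
    nlinarith
  calc |f T - T * Real.log T / (2 * Real.pi)| * Real.log T ≤ ((C + 1) * T + |M| * T) * Real.log T := by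
        gcongr
        linarith
    _ = _ := by ring

variable {q : ℕ} [NeZero q]

open Classical in
/-- the counting function of one character -/
theorem count_lim (χ : DirichletCharacter ℂ q) :
    Tendsto (fun T => (∑ ρ ∈ AC χ T, mC χ ρ) / (T * Real.log T)) atTop (𝓝 (1 / (2 * Real.pi))) := by
  have := cond_ne χ
  obtain ⟨C, T0, hC, hT0, h⟩ := H370.nn_asymp (good χ)
  refine dyadic_lim (f := fun T => ∑ ρ ∈ AC χ T, mC χ ρ) (T0 := T0) (C := C) ?_ ?_ (by linarith) hC.le ?_
  · intro a b hab
    refine Finset.sum_le_sum_of_subset_of_nonneg (fun ρ hρ => ?_) fun ρ _ _ => mC_nonneg χ ρ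
    rw [mem_AC] at hρ ⊢
    exact ⟨hρ.1, hρ.2.trans hab⟩
  · exact fun T => Finset.sum_nonneg fun ρ _ => mC_nonneg χ ρ
  · intro T hT
    have h1 : AC χ (2 * T) = AC χ T ∪ W χ T (2 * T) := AC_union χ (by linarith) (by linarith)
    rw [h1, Finset.sum_union (AC_disj χ T (2 * T)), sum_W_NN χ (by linarith)]
    have h2 := h T hT T (2 * T) le_rfl (by linarith) (by linarith) le_rfl
    have e : (∑ ρ ∈ AC χ T, mC χ ρ + (NN (LFunction χ.primitiveCharacter) T (2 * T) : ℝ)) - ∑ ρ ∈ AC χ T, mC χ ρ -
        T * Real.log T / (2 * Real.pi) = (NN (LFunction χ.primitiveCharacter) T (2 * T) : ℝ) -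
        T * Real.log T / (2 * Real.pi) := by ring
    rw [e]
    exact h2

theorem Ns_eq (S : Finset (DirichletCharacter ℂ q)) (T : ℝ) :
    (dat S).Ns T = ∑ χ : {χ : DirichletCharacter ℂ q // χ ∈ S}, ∑ ρ ∈ AC χ.1 T, mC χ.1 ρ := by
  unfold Dat.Ns
  rw [FZ_eq]
  exact Finset.sum_sigma (Finset.univ : Finset {χ : DirichletCharacter ℂ q // χ ∈ S}) (fun χ => AC χ.1 T) fun i => mC i.1.1 i.2

/-- GX-CNT -/
theorem t_CNT : S_CNT := by
  intro q _ S
  refine ⟨fin_dat S, ?_⟩
  have h1 : (fun T => (dat S).Ns T / (T * Real.log T)) =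
      fun T => ∑ χ : {χ : DirichletCharacter ℂ q // χ ∈ S}, (∑ ρ ∈ AC χ.1 T, mC χ.1 ρ) / (T * Real.log T) := by
    funext T
    rw [Ns_eq, Finset.sum_div]
  have h2 : (S.card : ℝ) / (2 * Real.pi) =
      ∑ χ : {χ : DirichletCharacter ℂ q // χ ∈ S}, (1 / (2 * Real.pi) : ℝ) := by
    rw [Finset.sum_const, Finset.card_univ, Fintype.card_coe, nsmul_eq_mul]
    ring
  rw [h1, h2]
  exact tendsto_finset_sum _ fun χ _ => count_lim χ.1

end

end Pool.Agent.Q237.GX
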