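import Pool.Agent.Q237.GX.Cnt
import Pool.Agent.H370R2.PC

set_option autoImplicit false

/-! # Project GX, job CRU: the crude bound for the pairs -/

namespace Pool.Agent.Q237.GX

open MeasureTheory Filter Topology Set Complex DirichletCharacter
open Pool.Agent.Q260.GX
open Pool.Agent.Y749.Rig (nT)
open H370 (zset mult NN Zf GoodL kap phi zz QQ Rf)

noncomputable section

/-! ### the kernel -/

theorem kap_real (x : ℝ) : (starRingEnd ℂ) (kap x) = kap x := by
  have h1 : (starRingEnd ℂ) (kap x) = kap (-x) := by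
    unfold kap
    rw [← intervalIntegral.intervalIntegral_conj]
    refine intervalIntegral.integral_congr fun t _ => ?_
    simp only [map_mul, Complex.conj_ofReal, ← Complex.exp_conj, Complex.conj_I]
    congr 2
    ring
  rw [h1, H370.kap_even]

theorem phi_real (Λ v : ℝ) : phi Λ (v : ℂ) = (((kap ((Λ * v : ℝ) : ℂ)).re * Real.exp (-v ^ 2 / 8) : ℝ) : ℂ) := by
  unfold phi
  have h1 : kap ((Λ : ℂ) * (v : ℂ)) = (((kap ((Λ * v : ℝ) : ℂ)).re : ℝ) : ℂ) := by
    have h2 := kap_real (Λ * v)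
    rw [Complex.conj_eq_iff_re] at h2
    rw [h2]
    push_cast
    rfl
  rw [h1]
  push_cast
  rfl

theorem kap_near : ∃ δ : ℝ, 0 < δ ∧ δ ≤ 1 ∧ ∀ x : ℝ, |x| ≤ δ → 1 / 2 ≤ (kap x).re := by
  have hc : Continuous fun x : ℝ => (kap (x : ℂ)).re :=
    Complex.continuous_re.comp (H370.GramAux.kap_cont.comp Complex.continuous_ofReal)
  have h0 : (kap ((0 : ℝ) : ℂ)).re = 1 := by
    rw [Complex.ofReal_zero, H370.kap_zero]
    simp
  have h1 : ∀ᶠ x : ℝ in 𝓝 0, 1 / 2 < (kap (x : ℂ)).re := by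
    refine hc.continuousAt.eventually (lt_mem_nhds ?_)
    show 1 / 2 < (kap ((0 : ℝ) : ℂ)).re
    rw [h0]
    norm_num
  obtain ⟨ε, hε, h⟩ := Metric.eventually_nhds_iff.1 h1
  refine ⟨min (ε / 2) 1, by positivity, min_le_right _ _, fun x hx => (h ?_).le⟩
  rw [Real.dist_eq, sub_zero]
  have := min_le_left (ε / 2) 1
  linarith

/-- the square of the kernel at real arguments -/
def ps (Λ v : ℝ) : ℝ := ((kap ((Λ * v : ℝ) : ℂ)).re * Real.exp (-v ^ 2 / 8)) ^ 2

theorem ps_nonneg (Λ v : ℝ) : 0 ≤ ps Λ v := sq_nonneg _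

theorem ps_ge {δ : ℝ} (h : ∀ x : ℝ, |x| ≤ δ → 1 / 2 ≤ (kap x).re) {Λ v : ℝ} (h1 : |Λ * v| ≤ δ) (h2 : |v| ≤ 1) :
    1 / 16 ≤ ps Λ v := by
  have h3 := h _ h1
  have h4 : 1 / 2 ≤ Real.exp (-v ^ 2 / 8) := by
    have h5 := Real.add_one_le_exp (-v ^ 2 / 8)
    have h6 : v ^ 2 ≤ 1 := by
      rw [← sq_abs]
      have := abs_nonneg v
      nlinarith
    linarith
  unfold ps
  have h7 : 1 / 4 ≤ (kap ((Λ * v : ℝ) : ℂ)).re * Real.exp (-v ^ 2 / 8) := by nlinarith
  nlinarith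

variable {q : ℕ} [NeZero q]

/-- the cells -/
def cell (χ : DirichletCharacter ℂ q) (h : ℝ) (ρ : ZC χ) : ℤ := ⌊(ρ : ℂ).im / h⌋

theorem cell_close {χ : DirichletCharacter ℂ q} {h : ℝ} (hh : 0 < h) {ρ ρ' : ZC χ} (e : cell χ h ρ = cell χ h ρ') :
    |(ρ : ℂ).im - (ρ' : ℂ).im| ≤ h := by
  unfold cell at e
  have h1 := Int.floor_le ((ρ : ℂ).im / h)
  have h2 := Int.lt_floor_add_one ((ρ : ℂ).im / h)
  have h3 := Int.floor_le ((ρ' : ℂ).im / h)
  have h4 := Int.lt_floor_add_one ((ρ' : ℂ).im / h)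
  rw [e] at h1 h2
  have h5 : |(ρ : ℂ).im / h - (ρ' : ℂ).im / h| ≤ 1 := by
    rw [abs_le]
    constructor <;> linarith
  rw [← sub_div, abs_div, abs_of_pos hh, div_le_one hh] at h5
  exact h5

/-- the zeros are on the line -/
theorem re_half {χ : DirichletCharacter ℂ q} (hG : GRH1 χ) {a b : ℝ} [NeZero χ.conductor] {s : ℂ}
    (hs : s ∈ zset (LFunction χ.primitiveCharacter) a b) : s.re = 1 / 2 := by
  rw [← zset_eq] at hs
  exact hG s hs.2.2.2.2 hs.1 hs.2.1

open Classical in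
/-- pairs in the same cell and the pair correlation sum -/
theorem P_mid {χ : DirichletCharacter ℂ q} (hG : GRH1 χ) [NeZero χ.conductor] {δ : ℝ}
    (hδ : ∀ x : ℝ, |x| ≤ δ → 1 / 2 ≤ (kap x).re) {Λ h U1 U2 : ℝ} (hΛ : 0 ≤ Λ) (hh : 0 < h) (h1 : h ≤ 1) (h2 : Λ * h ≤ δ)
    (hU : 1 ≤ U1) :
    Cells.P (mC χ) (cell χ h) (W χ U1 U2) ≤ 16 * QQ (LFunction χ.primitiveCharacter) Λ U1 U2 := by
  set F := LFunction χ.primitiveCharacter with hF
  have hQ : QQ F Λ U1 U2 = ∑ s ∈ Zf F U1 U2, ∑ s' ∈ Zf F U1 U2, (mult F s : ℝ) * (mult F s' : ℝ) * ps Λ (s.im - s'.im) := by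
    rw [H370.QQ_eq (good χ) hU]
    have e : ∑ s ∈ Zf F U1 U2, ∑ s' ∈ Zf F U1 U2, (mult F s : ℂ) * (mult F s' : ℂ) * (phi Λ (zz s - zz s')) ^ 2 =
        (((∑ s ∈ Zf F U1 U2, ∑ s' ∈ Zf F U1 U2, (mult F s : ℝ) * (mult F s' : ℝ) * ps Λ (s.im - s'.im) : ℝ)) : ℂ) := by
      push_cast
      refine Finset.sum_congr rfl fun s hs => Finset.sum_congr rfl fun s' hs' => ?_
      have a1 := re_half hG ((H370.mem_Zf (good χ) hU).1 hs)
      have a2 := re_half hG ((H370.mem_Zf (good χ) hU).1 hs')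
      have z1 : zz s = (s.im : ℂ) := by
        apply Complex.ext
        · rw [H370.zz_re]
          simp
        · rw [H370.zz_im, a1]
          simp
      have z2 : zz s' = (s'.im : ℂ) := by
        apply Complex.ext
        · rw [H370.zz_re]
          simp
        · rw [H370.zz_im, a2]
          simp
      have z3 : zz s - zz s' = ((s.im - s'.im : ℝ) : ℂ) := by
        rw [z1, z2]
        push_cast
        rfl
      rw [z3, phi_real]
      unfold ps
      push_cast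
      rfl
    rw [e, Complex.ofReal_re]
  rw [hQ, Cells.P_pairs]
  have h3 : ∑ s ∈ Zf F U1 U2, ∑ s' ∈ Zf F U1 U2, (mult F s : ℝ) * (mult F s' : ℝ) * ps Λ (s.im - s'.im) =
      ∑ ρ ∈ W χ U1 U2, ∑ ρ' ∈ W χ U1 U2, mC χ ρ * mC χ ρ' * ps Λ ((ρ : ℂ).im - (ρ' : ℂ).im) := by
    rw [← sum_W χ hU U2 fun s => ∑ s' ∈ Zf F U1 U2, (mult F s : ℝ) * (mult F s' : ℝ) * ps Λ (s.im - s'.im)]
    refine Finset.sum_congr rfl fun ρ _ => ?_
    rw [← sum_W χ hU U2 fun s' => (mult F (ρ : ℂ) : ℝ) * (mult F s' : ℝ) * ps Λ ((ρ : ℂ).im - s'.im)]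
    refine Finset.sum_congr rfl fun ρ' _ => ?_
    rw [mC_eq, mC_eq]
  rw [h3, Finset.mul_sum]
  refine Finset.sum_le_sum fun ρ _ => ?_
  rw [Finset.mul_sum]
  refine Finset.sum_le_sum fun ρ' _ => ?_
  have hm : 0 ≤ mC χ ρ * mC χ ρ' := mul_nonneg (mC_nonneg χ ρ) (mC_nonneg χ ρ')
  by_cases e : cell χ h ρ = cell χ h ρ'
  · rw [if_pos e, mul_one]
    have hv := cell_close hh e
    have h4 : 1 / 16 ≤ ps Λ ((ρ : ℂ).im - (ρ' : ℂ).im) := by
      refine ps_ge hδ ?_ (hv.trans h1)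
      rw [abs_mul, abs_of_nonneg hΛ]
      exact (mul_le_mul_of_nonneg_left hv hΛ).trans h2
    nlinarith
  · rw [if_neg e, mul_zero]
    have := ps_nonneg Λ ((ρ : ℂ).im - (ρ' : ℂ).im)
    positivity

theorem P_end {χ : DirichletCharacter ℂ q} (h : ℝ) [NeZero χ.conductor] {a b N : ℝ} (ha : 1 ≤ a)
    (hN : (NN (LFunction χ.primitiveCharacter) a b : ℝ) ≤ N) : Cells.P (mC χ) (cell χ h) (W χ a b) ≤ N ^ 2 := by
  refine (Cells.P_le_sq _ _ (mC_nonneg χ) _).trans ?_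
  rw [sum_W_NN χ ha]
  exact pow_le_pow_left₀ (Nat.cast_nonneg _) hN 2

open Classical in
/-- one dyadic window -/
theorem P_window {χ : DirichletCharacter ℂ q} (hG : GRH1 χ) {δ : ℝ} (hδ0 : 0 < δ) (hδ1 : δ ≤ 1)
    (hδ : ∀ x : ℝ, |x| ≤ δ → 1 / 2 ≤ (kap x).re) :
    ∃ C T0 : ℝ, 0 ≤ C ∧ 10 ≤ T0 ∧ ∀ T : ℝ, T0 ≤ T → ∀ h : ℝ, 0 < h → h * Real.log T ≤ δ →
      Cells.P (mC χ) (cell χ h) (W χ T (2 * T)) ≤ C * (T * Real.log T) := by
  have := cond_ne χ
  obtain ⟨T1, hT1, hpc⟩ := H370.pair_corr (good χ) (1 / 4) 1 (by norm_num) (by norm_num) one_pos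
  obtain ⟨C0, hC0, hz⟩ := H370.zcount (good χ)
  set F := LFunction χ.primitiveCharacter with hF
  set C1 : ℝ := Rf 0 / (1 - 1 / 4) + 2 * (1 - 1 / 4) * (∫ α in (0 : ℝ)..1, α * Rf α) + 1 with hC1
  have hI0 : 0 ≤ ∫ α in (0 : ℝ)..1, α * Rf α := intervalIntegral.integral_nonneg zero_le_one fun α hα =>
    mul_nonneg hα.1 (H370.Rf_nonneg α)
  have hC10 : 0 ≤ C1 := by
    have := H370.Rf_nonneg 0
    rw [hC1]
    have h1 : 0 ≤ Rf 0 / (1 - 1 / 4) := div_nonneg this (by norm_num)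
    have h2 : 0 ≤ 2 * (1 - 1 / 4 : ℝ) * (∫ α in (0 : ℝ)..1, α * Rf α) := by positivity
    linarith
  refine ⟨80 * C0 ^ 2 + 64 * C1, T1, by positivity, hT1, fun T hT h hh hhT => ?_⟩
  obtain ⟨U1, U2, hU1, hU1', hU2, hU2', -, hQ⟩ := hpc T hT
  have hT10 : 10 ≤ T := hT1.trans hT
  have hL1 : 1 ≤ Real.log T := by
    rw [Real.le_log_iff_exp_le (by linarith)]
    linarith [Real.exp_one_lt_d9]
  have hh1 : h ≤ 1 := by nlinarith
  have hU12 : U1 ≤ U2 := by linarith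
  -- decomposition
  have e1 : W χ T (2 * T) = W χ T U1 ∪ W χ U1 (2 * T) := W_union χ hU1 (by linarith)
  have e2 : W χ U1 (2 * T) = W χ U1 U2 ∪ W χ U2 (2 * T) := W_union χ hU12 hU2'
  have p1 := Cells.P_union (mC χ) (cell χ h) (W_disj χ T U1 (2 * T)) one_pos
  have p2 := Cells.P_union (mC χ) (cell χ h) (W_disj χ U1 U2 (2 * T)) one_pos
  rw [← e1] at p1
  rw [← e2] at p2
  -- the ends
  have n1 : (NN F T U1 : ℝ) ≤ C0 * Real.log T := by
    have h1 : NN F T U1 ≤ NN F (T - 1) (T + 1) := H370.NN_mono (good χ) (by linarith) (by linarith) hU1'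
    have h2 := hz T (by linarith)
    have h3 : (NN F T U1 : ℝ) ≤ NN F (T - 1) (T + 1) := by exact_mod_cast h1
    linarith
  have n2 : (NN F U2 (2 * T) : ℝ) ≤ 2 * (C0 * Real.log T) := by
    have h1 : NN F U2 (2 * T) ≤ NN F (2 * T - 1) (2 * T + 1) :=
      H370.NN_mono (good χ) (by linarith) hU2 (by linarith)
    have h2 := hz (2 * T) (by linarith)
    have h3 : (NN F U2 (2 * T) : ℝ) ≤ NN F (2 * T - 1) (2 * T + 1) := by exact_mod_cast h1
    have h4 : Real.log (2 * T) ≤ 2 * Real.log T := by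
      rw [Real.log_mul (by norm_num) (by linarith)]
      have : Real.log 2 ≤ Real.log T := Real.log_le_log (by norm_num) (by linarith)
      linarith
    nlinarith
  have q1 := P_end (χ := χ) h (by linarith : (1 : ℝ) ≤ T) n1
  have q2 := P_end (χ := χ) h (by linarith : (1 : ℝ) ≤ U2) n2
  have q3 := P_mid hG hδ (Λ := (1 - 1 / 4) * Real.log T) (h := h) (U1 := U1) (U2 := U2) (by positivity) hh hh1
    (by nlinarith) (by linarith)
  -- logarithms
  have l1 : (Real.log T) ^ 2 ≤ 4 * (T * Real.log T) := by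
    have := Real.log_le_sub_one_of_pos (show 0 < T by linarith)
    nlinarith
  have hTL : 0 ≤ T * Real.log T := by positivity
  have hQ' : QQ F ((1 - 1 / 4) * Real.log T) U1 U2 ≤ (T * Real.log T) * C1 := by
    refine hQ.trans ?_
    refine mul_le_mul_of_nonneg_right ?_ hC10
    exact div_le_self hTL (by linarith [Real.pi_gt_three])
  have r1 : (C0 * Real.log T) ^ 2 ≤ 4 * C0 ^ 2 * (T * Real.log T) := by
    calc (C0 * Real.log T) ^ 2 = C0 ^ 2 * (Real.log T) ^ 2 := by ring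
      _ ≤ C0 ^ 2 * (4 * (T * Real.log T)) := by gcongr
      _ = _ := by ring
  have r2 : (2 * (C0 * Real.log T)) ^ 2 ≤ 16 * C0 ^ 2 * (T * Real.log T) := by
    calc (2 * (C0 * Real.log T)) ^ 2 = 4 * (C0 * Real.log T) ^ 2 := by ring
      _ ≤ 4 * (4 * C0 ^ 2 * (T * Real.log T)) := by gcongr
      _ = _ := by ring
  norm_num at p1 p2
  nlinarith

open Classical in
/-- all zeros up to `T` -/
theorem P_all {χ : DirichletCharacter ℂ q} (hG : GRH1 χ) {δ : ℝ} (hδ0 : 0 < δ) (hδ1 : δ ≤ 1)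
    (hδ : ∀ x : ℝ, |x| ≤ δ → 1 / 2 ≤ (kap x).re) :
    ∃ K T0 : ℝ, 0 ≤ K ∧ 10 ≤ T0 ∧ ∀ T : ℝ, T0 ≤ T → ∀ h : ℝ, 0 < h → h * Real.log T ≤ δ →
      Cells.P (mC χ) (cell χ h) (AC χ T) ≤ K * (T * Real.log T) := by
  obtain ⟨C, T0, hC, hT0, hw⟩ := P_window hG hδ0 hδ1 hδ
  set M : ℝ := (∑ ρ ∈ AC χ (2 * T0), mC χ ρ) ^ 2 with hM
  have hM0 : 0 ≤ M := sq_nonneg _
  refine ⟨6 * C + M, T0, by positivity, hT0, fun T hT h hh hhT => ?_⟩
  set L := Real.log T with hL
  have hL1 : 1 ≤ L := by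
    rw [hL, Real.le_log_iff_exp_le (by linarith)]
    linarith [Real.exp_one_lt_d9]
  have key : ∀ k : ℕ, ∀ T' : ℝ, T0 ≤ T' → T' ≤ T → T' < 2 ^ (k + 1) * T0 →
      Cells.P (mC χ) (cell χ h) (AC χ T') ≤ (6 * C + M) * (T' * L) := by
    intro k
    induction k with
    | zero =>
      intro T' h1 _ h2
      have h2' : T' ≤ 2 * T0 := by
        have e : (2 : ℝ) ^ (0 + 1) * T0 = 2 * T0 := by ring
        rw [e] at h2
        exact h2.le
      have h3 : Cells.P (mC χ) (cell χ h) (AC χ T') ≤ M := by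
        refine (Cells.P_le_sq _ _ (mC_nonneg χ) _).trans ?_
        rw [hM]
        refine pow_le_pow_left₀ (Finset.sum_nonneg fun ρ _ => mC_nonneg χ ρ) ?_ 2
        refine Finset.sum_le_sum_of_subset_of_nonneg (fun ρ hρ => ?_) fun ρ _ _ => mC_nonneg χ ρ
        rw [mem_AC] at hρ ⊢
        exact ⟨hρ.1, hρ.2.trans h2'⟩
      have h4 : 1 ≤ T' * L := by nlinarith
      have h5 : 0 ≤ C * (T' * L) := by positivity
      nlinarith
    | succ k ih =>
      intro T' h1 hT' h2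
      rcases lt_or_ge T' (2 * T0) with h3 | h3
      · refine ih T' h1 hT' (h3.trans_le ?_)
        have : (1 : ℝ) ≤ 2 ^ k := one_le_pow₀ (by norm_num)
        have e : (2 : ℝ) ^ (k + 1) * T0 = 2 * (2 ^ k * T0) := by ring
        rw [e]
        nlinarith
      · have h4 : T0 ≤ T' / 2 := by linarith
        have h5 : T' / 2 < 2 ^ (k + 1) * T0 := by
          have e : (2 : ℝ) ^ (k + 1 + 1) * T0 = 2 * (2 ^ (k + 1) * T0) := by ring
          rw [e] at h2
          linarith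
        have h6 := ih (T' / 2) h4 (by linarith) h5
        have hlog : Real.log (T' / 2) ≤ L := Real.log_le_log (by linarith) (by linarith)
        have hlog0 : 0 ≤ Real.log (T' / 2) := Real.log_nonneg (by linarith)
        have h7 := hw (T' / 2) h4 h hh ((mul_le_mul_of_nonneg_left hlog hh.le).trans hhT)
        have e2 : 2 * (T' / 2) = T' := by ring
        rw [e2] at h7
        have e3 : AC χ T' = AC χ (T' / 2) ∪ W χ (T' / 2) T' := AC_union χ (by linarith) (by linarith)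
        have h8 := Cells.P_union (mC χ) (cell χ h) (AC_disj χ (T' / 2) T') (show (0 : ℝ) < 1 / 2 by norm_num)
        rw [← e3] at h8
        have h9 : C * (T' / 2 * Real.log (T' / 2)) ≤ C * (T' / 2 * L) := by
          have : 0 ≤ T' / 2 := by linarith
          gcongr
        have h10 : 0 ≤ M * (T' * L) := by
          have : 0 ≤ T' := by linarith
          positivity
        norm_num at h8
        nlinarith
  obtain ⟨k, hk⟩ := pow_unbounded_of_one_lt (T / T0) (show (1 : ℝ) < 2 by norm_num)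
  refine key k T hT le_rfl ?_
  have h1 : T < 2 ^ k * T0 := by
    rwa [div_lt_iff₀ (by linarith)] at hk
  refine h1.trans_le ?_
  have : (0 : ℝ) ≤ 2 ^ k * T0 := by positivity
  rw [pow_succ]
  linarith

open Classical in
/-- GX-CRU -/
theorem t_CRU : S_CRU := by
  intro q _ S _ hG
  obtain ⟨δ, hδ0, hδ1, hδ⟩ := kap_near
  choose K T0 hK0 hT0 hK using fun χ : {χ : DirichletCharacter ℂ q // χ ∈ S} => P_all (hG χ.1 χ.2) hδ0 hδ1 hδ
  set KS : ℝ := ∑ χ, K χ with hKS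
  have hKS0 : 0 ≤ KS := Finset.sum_nonneg fun χ _ => hK0 χ
  set m : ℝ := (Fintype.card {χ : DirichletCharacter ℂ q // χ ∈ S} : ℝ) with hm
  have hm0 : 0 ≤ m := Nat.cast_nonneg _
  set K1 : ℝ := 8 / δ ^ 2 * Cells.cW * (m * KS) * (2 * Real.pi) with hK1
  have hcW := Cells.cW_pos
  have hev : ∀ᶠ T : ℝ in atTop, ∀ χ, T0 χ ≤ T := by
    rw [Filter.eventually_all]
    exact fun χ => eventually_ge_atTop _
  refine ⟨max 1 K1, le_max_left _ _, ?_⟩
  filter_upwards [hev, eventually_ge_atTop 10] with T hT hT10 a ha0 ha1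
  have hL1 : 1 ≤ Real.log T := by
    rw [Real.le_log_iff_exp_le (by linarith)]
    linarith [Real.exp_one_lt_d9]
  set L := Real.log T with hL
  have hL0 : 0 < L := by linarith
  set h : ℝ := δ / L with hh
  have hh0 : 0 < h := by positivity
  have hhL : h * L ≤ δ := by
    rw [hh, div_mul_cancel₀ _ hL0.ne']
  set x : ℝ := a / L with hx
  have hx0 : 0 < x := by positivity
  have hxh : x * δ ≤ h := by
    rw [hx, hh, div_mul_eq_mul_div]
    gcongr
    nlinarith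
  -- the pairs
  set κ : (dat S).ι → ℤ := fun i => ⌊(dat S).ga i / h⌋ with hκ
  have hbig := Cells.big (fun i : (dat S).ι => ((dat S).mu i : ℝ)) κ (fun i => Nat.cast_nonneg _) ((dat S).FZ T)
    (fun i j => x * (4 * x / (4 * x ^ 2 + ((dat S).ga i - (dat S).ga j) ^ 2))) (B := 8 / δ ^ 2) (by positivity) (by
      intro i _ j _
      set v := (dat S).ga i - (dat S).ga j with hv
      have h1 := Int.floor_le ((dat S).ga i / h)
      have h2 := Int.lt_floor_add_one ((dat S).ga i / h)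
      have h3 := Int.floor_le ((dat S).ga j / h)
      have h4 := Int.lt_floor_add_one ((dat S).ga j / h)
      set k : ℝ := ((κ i : ℝ) - κ j) with hk
      have h5 : |k| ≤ |v| / h + 1 := by
        have e : |v| / h = |(dat S).ga i / h - (dat S).ga j / h| := by
          rw [← sub_div, abs_div, abs_of_pos hh0]
        rw [e, abs_le]
        have h6 := neg_abs_le ((dat S).ga i / h - (dat S).ga j / h)
        have h7 := le_abs_self ((dat S).ga i / h - (dat S).ga j / h)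
        constructor <;> · simp only [hk, hκ]; linarith
      have h6 : k ^ 2 ≤ 2 * (v ^ 2 / h ^ 2) + 2 := by
        have h7 : (|v| / h) ^ 2 = v ^ 2 / h ^ 2 := by rw [div_pow, sq_abs]
        have h8 : k ^ 2 ≤ (|v| / h + 1) ^ 2 := by
          rw [← sq_abs k]
          exact pow_le_pow_left₀ (abs_nonneg _) h5 2
        nlinarith [sq_nonneg (|v| / h - 1)]
      have h9 : v ^ 2 / h ^ 2 * (x ^ 2 * δ ^ 2) ≤ v ^ 2 := by
        rw [div_mul_eq_mul_div, div_le_iff₀ (by positivity)]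
        have : x ^ 2 * δ ^ 2 ≤ h ^ 2 := by
          rw [← mul_pow]
          exact pow_le_pow_left₀ (by positivity) hxh 2
        nlinarith [sq_nonneg v]
      show x * (4 * x / (4 * x ^ 2 + v ^ 2)) ≤ 8 / δ ^ 2 / (1 + k ^ 2)
      rw [div_div, ← mul_div_assoc, div_le_div_iff₀ (by positivity) (by positivity)]
      have hv2 : 0 ≤ v ^ 2 / h ^ 2 := by positivity
      have hδ2 : δ ^ 2 ≤ 1 := by nlinarith
      have hx2 : 0 < x ^ 2 := by positivity
      have a1 : x ^ 2 * δ ^ 2 * k ^ 2 ≤ x ^ 2 * δ ^ 2 * (2 * (v ^ 2 / h ^ 2) + 2) := by gcongr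
      have a2 : x ^ 2 * δ ^ 2 ≤ x ^ 2 := by nlinarith
      nlinarith)
  have hsum : ∑ i ∈ (dat S).FZ T, ∑ j ∈ (dat S).FZ T, ((dat S).mu i : ℝ) * (dat S).mu j *
      (x * (4 * x / (4 * x ^ 2 + ((dat S).ga i - (dat S).ga j) ^ 2))) = x * (dat S).QQ x T := by
    unfold Dat.QQ
    rw [Finset.mul_sum]
    refine Finset.sum_congr rfl fun i _ => ?_
    rw [Finset.mul_sum]
    refine Finset.sum_congr rfl fun j _ => ?_
    ring
  rw [hsum] at hbig
  -- the bound for the cells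
  have hP : Cells.P (fun i : (dat S).ι => ((dat S).mu i : ℝ)) κ ((dat S).FZ T) ≤ m * (KS * (T * L)) := by
    rw [FZ_eq]
    refine (Cells.P_sigma _ _ _).trans ?_
    rw [← hm]
    refine mul_le_mul_of_nonneg_left ?_ hm0
    rw [hKS, Finset.sum_mul]
    refine Finset.sum_le_sum fun χ _ => ?_
    exact hK χ T (hT χ) h hh0 hhL
  have hn : 0 < nT T := Pool.Agent.Y749.Rig.nT_pos hT10
  have e1 : a * (dat S).RR a T = x * (dat S).QQ x T / nT T := by
    unfold Dat.RR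
    rw [← hL, ← hx]
    have : x = a / L := hx
    rw [this]
    field_simp
  have e2 : T * L = nT T * (2 * Real.pi) := by
    unfold nT
    rw [← hL]
    field_simp
  rw [e1, div_le_iff₀ hn]
  calc x * (dat S).QQ x T ≤ 8 / δ ^ 2 * Cells.cW * (m * (KS * (T * L))) := by
        refine hbig.trans ?_
        have : 0 ≤ 8 / δ ^ 2 * Cells.cW := by positivity
        exact mul_le_mul_of_nonneg_left hP this
    _ = K1 * nT T := by
        rw [e2, hK1]
        ring
    _ ≤ max 1 K1 * nT T := by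
        have := le_max_right 1 K1
        gcongr

end

end Pool.Agent.Q237.GX
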