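import Pool.Agent.Q237.GX.L2U
import Pool.Agent.Q162.HV.GR
import Pool.Agent.Q162.HV.SY

set_option autoImplicit false

/-! # Project GX, job GRS: the generalized Riemann hypothesis for all characters of a set from the mean square -/

namespace Pool.Agent.Q237.GX

open MeasureTheory Filter Topology Set Complex DirichletCharacter
open Pool.Agent.Q260.GX
open Pool.Agent.Q253.HV (psiC lap Adm ld)
open Pool.Agent.Q162.HV (lap_diff right abs_int t_SY nt)

noncomputable section

/-- no zeros from an analytic logarithmic derivative -/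
theorem nonvan {F g : ℂ → ℂ} (hF : Differentiable ℂ F) (hg : ∀ z : ℂ, 1 / 2 < z.re → DifferentiableAt ℂ g z)
    (h2 : F 2 ≠ 0) (hd : ∀ z : ℂ, 1 < z.re → deriv F z = g z * F z) {s : ℂ} (hs : 1 / 2 < s.re) : F s ≠ 0 := by
  have hopen : IsOpen {z : ℂ | 1 / 2 < z.re} := isOpen_lt continuous_const Complex.continuous_re
  have hconn : IsPreconnected {z : ℂ | 1 / 2 < z.re} := (convex_halfSpace_re_gt (1 / 2)).isPreconnected
  have hA1 : AnalyticOnNhd ℂ (deriv F) {z : ℂ | 1 / 2 < z.re} :=
    DifferentiableOn.analyticOnNhd hF.deriv.differentiableOn hopen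
  have hA2 : AnalyticOnNhd ℂ (fun s => g s * F s) {z : ℂ | 1 / 2 < z.re} := by
    refine DifferentiableOn.analyticOnNhd (fun z hz => DifferentiableAt.differentiableWithinAt ?_) hopen
    exact (hg z hz).mul hF.differentiableAt
  have h2' : (2 : ℂ) ∈ {z : ℂ | 1 / 2 < z.re} := by simp; norm_num
  have hev : deriv F =ᶠ[𝓝 2] fun s => g s * F s := by
    have h3 : {z : ℂ | 1 < z.re} ∈ 𝓝 (2 : ℂ) :=
      (isOpen_lt continuous_const Complex.continuous_re).mem_nhds (by simp)
    filter_upwards [h3] with z hz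
    exact hd z hz
  have hall : EqOn (deriv F) (fun s => g s * F s) {z : ℂ | 1 / 2 < z.re} :=
    hA1.eqOn_of_preconnected_of_eventuallyEq hA2 hconn h2' hev
  intro h0
  have hA : AnalyticAt ℂ F s := hF.analyticAt s
  have hga : AnalyticAt ℂ g s := by
    refine DifferentiableOn.analyticAt (s := {z : ℂ | 1 / 2 < z.re}) (fun z hz => ?_) (hopen.mem_nhds hs)
    exact (hg z hz).differentiableWithinAt
  have h1 := hA.analyticOrderAt_deriv_add_one
  have h2'' : (fun z => F z - F s) = F := by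
    funext z; rw [h0, sub_zero]
  rw [h2''] at h1
  have h3 : deriv F =ᶠ[𝓝 s] g * F := by
    filter_upwards [hopen.mem_nhds hs] with z hz
    exact hall hz
  rw [analyticOrderAt_congr h3, analyticOrderAt_mul hga hA] at h1
  have h4 : analyticOrderAt F s = ⊤ := by
    by_contra hne
    obtain ⟨n, hn⟩ := ENat.ne_top_iff_exists.1 hne
    rw [← hn] at h1
    have h5 : (n : ℕ∞) + 1 ≤ n := by
      calc (n : ℕ∞) + 1 ≤ (analyticOrderAt g s + n) + 1 := by
            gcongr
            exact le_add_self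
        _ = n := h1
    have h6 : (n + 1 : ℕ) ≤ n := by exact_mod_cast h5
    omega
  rw [analyticOrderAt_eq_top] at h4
  have h5 : AnalyticOnNhd ℂ F univ := fun z _ => hF.analyticAt z
  have h6 : EqOn F 0 univ :=
    h5.eqOn_of_preconnected_of_eventuallyEq analyticOnNhd_const isPreconnected_univ (mem_univ s) h4
  exact h2 (h6 (mem_univ (2 : ℂ)))

variable {q : ℕ} [NeZero q]

/-- the function `L(s, χ)`, times `s - 1` for the principal character -/
def Gc (χ : DirichletCharacter ℂ q) : ℂ → ℂ := by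
  classical exact if χ = 1 then LFunctionTrivChar₁ q else LFunction χ

theorem Gc_one : Gc (1 : DirichletCharacter ℂ q) = LFunctionTrivChar₁ q := by
  unfold Gc
  simp

theorem Gc_ne {χ : DirichletCharacter ℂ q} (h : χ ≠ 1) : Gc χ = LFunction χ := by
  unfold Gc
  simp [h]

theorem Gc_diff (χ : DirichletCharacter ℂ q) : Differentiable ℂ (Gc χ) := by
  rcases eq_or_ne χ 1 with rfl | h
  · rw [Gc_one]
    exact differentiable_LFunctionTrivChar₁ q
  · rw [Gc_ne h]
    exact differentiable_LFunction h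

theorem triv1_of_ne {s : ℂ} (hs : s ≠ 1) : LFunctionTrivChar₁ q s = (s - 1) * LFunction (1 : DirichletCharacter ℂ q) s := by
  rw [LFunctionTrivChar₁, Function.update_of_ne hs]

theorem L_ne_of_Gc {χ : DirichletCharacter ℂ q} {s : ℂ} (hs : s ≠ 1) (h : Gc χ s ≠ 0) : LFunction χ s ≠ 0 := by
  rcases eq_or_ne χ 1 with rfl | h1
  · rw [Gc_one, triv1_of_ne hs] at h
    exact right_ne_zero_of_mul h
  · rwa [Gc_ne h1] at h

theorem Gc_ne_zero (χ : DirichletCharacter ℂ q) {s : ℂ} (hs : 1 < s.re) : Gc χ s ≠ 0 := by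
  have hs1 : s ≠ 1 := by
    rintro rfl
    simp at hs
  have hL : LFunction χ s ≠ 0 := LFunction_ne_zero_of_one_le_re χ (Or.inr hs1) hs.le
  rcases eq_or_ne χ 1 with rfl | h1
  · rw [Gc_one, triv1_of_ne hs1]
    exact mul_ne_zero (sub_ne_zero.2 hs1) hL
  · rwa [Gc_ne h1]

theorem dl_one : dl (1 : DirichletCharacter ℂ q) = 1 := by
  unfold dl
  simp

theorem dl_ne {χ : DirichletCharacter ℂ q} (h : χ ≠ 1) : dl χ = 0 := by
  unfold dl
  simp [h]

theorem Gc_ld (χ : DirichletCharacter ℂ q) {s : ℂ} (hs : 1 < s.re) :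
    logDeriv (Gc χ) s = -s * lap (fun t => psiC χ (Real.exp t)) s + dl χ / (s - 1) := by
  have hs1 : s ≠ 1 := by
    rintro rfl
    simp at hs
  have h0 := Gc_ne_zero χ hs
  have hr := right χ hs
  unfold ld at hr
  rw [logDeriv_apply, div_eq_iff h0]
  rcases eq_or_ne χ 1 with rfl | h1
  · rw [Gc_one, deriv_LFunctionTrivChar₁_apply_of_ne_one q hs1, triv1_of_ne hs1, dl_one]
    have h3 : s - 1 ≠ 0 := sub_ne_zero.2 hs1
    have e : LFunctionTrivChar q = LFunction (1 : DirichletCharacter ℂ q) := rfl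
    rw [e, hr]
    field_simp
    push_cast
    ring
  · rw [Gc_ne h1, hr, dl_ne h1]
    push_cast
    ring

theorem psiC_conj (χ : DirichletCharacter ℂ q) (x : ℝ) : (starRingEnd ℂ) (psiC χ x) = psiC χ⁻¹ x := by
  unfold psiC
  rw [map_sum]
  refine Finset.sum_congr rfl fun k _ => ?_
  rw [map_mul, Complex.conj_ofReal]
  congr 1
  exact MulChar.star_apply' χ _

theorem psiS_real {S : Finset (DirichletCharacter ℂ q)} (hS : InvCl S) (x : ℝ) :
    ((psiS S x : ℝ) : ℂ) = ∑ χ ∈ S, psiC χ x := by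
  unfold psiS
  rw [← Complex.conj_eq_iff_re, map_sum]
  refine Finset.sum_nbij' (fun χ => χ⁻¹) (fun χ => χ⁻¹) (fun χ h => hS.2 χ h) (fun χ h => hS.2 χ h)
    (fun χ _ => inv_inv χ) (fun χ _ => inv_inv χ) fun χ _ => psiC_conj χ x

theorem psi_int (χ : DirichletCharacter ℂ q) {s : ℂ} (hs : 1 < s.re) :
    IntegrableOn (fun w : ℝ => psiC χ (Real.exp w) * cexp (-s * w)) (Ioi 0) := by
  have h2 : IntegrableOn (fun w : ℝ => (Real.log 4 + 4) * Real.exp ((-(s.re - 1)) * w)) (Ioi 0) :=
    (integrableOn_exp_mul_Ioi (by linarith) 0).const_mul _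
  refine Integrable.mono' h2 ?_ (Eventually.of_forall fun w => ?_)
  · exact (((psiC_meas χ).comp Real.measurable_exp).mul
      (by fun_prop : Measurable fun w : ℝ => cexp (-s * w))).aestronglyMeasurable
  · have h3 : Real.exp ((-(s.re - 1)) * w) = Real.exp w * Real.exp (-(s.re * w)) := by
      rw [← Real.exp_add]
      congr 1
      ring
    rw [h3, nt (fun w => psiC χ (Real.exp w)) s w, ← mul_assoc]
    gcongr
    exact (psiC_norm_le χ _).trans (Chebyshev.psi_le_const_mul_self (Real.exp_pos w).le)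

theorem lap_dat {S : Finset (DirichletCharacter ℂ q)} (hS : InvCl S) {s : ℂ} (hs : 1 < s.re) :
    lap (fun w => ((dat S).ph w : ℂ)) s =
      ∑ χ ∈ S, lap (fun t => psiC χ (Real.exp t)) s - (dat S).m / (s - 1) := by
  have e1 : ∀ w : ℝ, ((dat S).ph w : ℂ) * cexp (-s * w) =
      ∑ χ ∈ S, psiC χ (Real.exp w) * cexp (-s * w) - ((dat S).m : ℂ) * cexp ((1 - s) * w) := by
    intro w
    have h1 : ((dat S).ph w : ℂ) = ((psiS S (Real.exp w) : ℝ) : ℂ) - ((dat S).m : ℂ) * ((Real.exp w : ℝ) : ℂ) := by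
      show (((psiS S (Real.exp w) - (∑ χ ∈ S, dl χ) * Real.exp w : ℝ)) : ℂ) = _ - (((∑ χ ∈ S, dl χ : ℝ)) : ℂ) * _
      push_cast
      ring
    rw [h1, psiS_real hS, sub_mul, Finset.sum_mul, Complex.ofReal_exp]
    have h2 : cexp ((1 - s) * w) = cexp w * cexp (-s * w) := by
      rw [← Complex.exp_add]
      congr 1
      ring
    rw [h2]
    ring
  have hre : (1 - s).re < 0 := by simp; linarith
  have hint : IntegrableOn (fun w : ℝ => ((dat S).m : ℂ) * cexp ((1 - s) * w)) (Ioi 0) :=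
    (integrableOn_exp_mul_complex_Ioi hre 0).const_mul _
  unfold lap
  simp_rw [e1]
  rw [integral_sub (integrable_finset_sum _ fun χ _ => psi_int χ hs) hint,
    integral_finset_sum _ fun χ _ => psi_int χ hs]
  congr 1
  rw [integral_const_mul, integral_exp_mul_complex_Ioi hre 0]
  have h3 : (1 : ℂ) - s ≠ 0 := by
    intro h
    rw [h] at hre
    simp at hre
  have h4 : s - 1 ≠ 0 := by
    intro h
    apply h3
    linear_combination -h
  simp only [Complex.ofReal_zero, mul_zero, Complex.exp_zero]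
  field_simp
  ring

theorem adm_dat (S : Finset (DirichletCharacter ℂ q))
    (h : ∀ θ : ℝ, 1 < θ → IntegrableOn (fun w => (dat S).ph w ^ 2 * Real.exp (-(θ * w))) (Ioi 0)) :
    Adm (fun w => ((dat S).ph w : ℂ)) := by
  refine ⟨(Complex.measurable_ofReal.comp (dat_ph_meas S)).aestronglyMeasurable, fun σ hσ => ?_⟩
  have h1 := h (2 * σ) (by linarith)
  refine h1.congr_fun (fun w _ => ?_) measurableSet_Ioi
  simp only [Complex.norm_real, Real.norm_eq_abs, sq_abs]

/-- GX-GRS -/
theorem t_GRS : S_GRS := by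
  intro q _ S hS h χ hχ
  have hA := adm_dat S h
  set F : ℂ → ℂ := ∏ χ ∈ S, Gc χ with hF
  have hFd : Differentiable ℂ F := by
    rw [hF]
    intro z
    have := DifferentiableAt.finset_prod (𝕜 := ℂ) (u := S) (f := fun χ => Gc χ) (x := z) fun χ _ => (Gc_diff χ) z
    simpa using this
  have hF0 : ∀ z : ℂ, 1 < z.re → F z ≠ 0 := by
    intro z hz
    rw [hF, Finset.prod_apply]
    exact Finset.prod_ne_zero_iff.2 fun χ _ => Gc_ne_zero χ hz
  have key : ∀ s : ℂ, 1 / 2 < s.re → F s ≠ 0 := by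
    intro s hs
    refine nonvan (g := fun z => -z * lap (fun w => ((dat S).ph w : ℂ)) z - (dat S).m) hFd (fun z hz => ?_)
      (hF0 2 (by simp)) (fun z hz => ?_) hs
    · exact ((differentiableAt_id.neg).mul (lap_diff hA hz)).sub_const _
    · have hz1 : z - 1 ≠ 0 := by
        intro h
        have : z = 1 := by linear_combination h
        rw [this] at hz
        simp at hz
      have h1 : logDeriv F z = ∑ χ ∈ S, logDeriv (Gc χ) z := by
        have := logDeriv_prod (s := S) (f := fun χ => Gc χ) (x := z) (fun χ _ => Gc_ne_zero χ hz) fun χ _ => (Gc_diff χ) z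
        rw [← this]
        congr 1
        funext w
        rw [hF, Finset.prod_apply]
      rw [logDeriv_apply, div_eq_iff (hF0 z hz)] at h1
      rw [h1, lap_dat hS hz]
      congr 1
      rw [Finset.sum_congr rfl fun χ _ => Gc_ld χ hz, Finset.sum_add_distrib, ← Finset.mul_sum, ← Finset.sum_div]
      have h2 : ((dat S).m : ℂ) = ∑ χ ∈ S, ((dl χ : ℝ) : ℂ) := by
        show (((∑ χ ∈ S, dl χ : ℝ)) : ℂ) = _
        push_cast
        rfl
      rw [h2]
      field_simp
      ring
  suffices hh : ∀ s : ℂ, 1 / 2 < s.re → s.re < 1 → LFunction χ s ≠ 0 from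
    fun s h1 h2 h3 => t_SY q χ hh s h2 h3 h1
  intro s hs1 hs2
  have hne : s ≠ 1 := by
    rintro rfl
    simp at hs2
  refine L_ne_of_Gc hne ?_
  have h3 := key s hs1
  rw [hF, Finset.prod_apply, Finset.prod_ne_zero_iff] at h3
  exact h3 χ hχ

end

end Pool.Agent.Q237.GX
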