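import Pool.Agent.Q260.GX.Spec2

set_option autoImplicit false

/-! # Project GX, job L2U: the mean square from upper bounds for short intervals -/

namespace Pool.Agent.Q237.GX

open MeasureTheory Filter Topology Set
open Pool.Agent.Q260.GM (pk sx LL kk h0 kT kT_pos)

noncomputable section

/-- the error in a short interval, normalised -/
def D (p : ℝ → ℝ) (κ u : ℝ) : ℝ := Real.exp (-(u / 2)) * (p (u + κ) - p u)

theorem D_meas {p : ℝ → ℝ} (hm : Measurable p) (κ : ℝ) : Measurable (D p κ) := by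
  unfold D
  exact (by fun_prop : Measurable fun u : ℝ => Real.exp (-(u / 2))).mul
    ((hm.comp (measurable_id.add_const κ)).sub hm)

theorem ii_of_le {f g : ℝ → ℝ} (hf : Measurable f) (hg : Continuous g) (h : ∀ x, |f x| ≤ g x) (a b : ℝ) :
    IntervalIntegrable f volume a b := by
  refine (hg.intervalIntegrable a b).mono_fun' hf.aestronglyMeasurable ?_
  exact Eventually.of_forall fun x => h x

theorem ph_sq_ii {p : ℝ → ℝ} (hm : Measurable p) (hp : ∃ C : ℝ, 0 ≤ C ∧ ∀ w : ℝ, |p w| ≤ C * Real.exp w) (a b : ℝ) : IntervalIntegrable (fun w => p w ^ 2) volume a b := by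
  obtain ⟨C, hC0, hC⟩ := hp
  refine ii_of_le (hm.pow_const 2) (g := fun w => (C * Real.exp w) ^ 2) (by fun_prop) (fun x => ?_) a b
  rw [abs_of_nonneg (sq_nonneg _), ← sq_abs]
  exact pow_le_pow_left₀ (abs_nonneg _) (hC x) 2

theorem D_sq_ii {p : ℝ → ℝ} (hm : Measurable p) (hp : ∃ C : ℝ, 0 ≤ C ∧ ∀ w : ℝ, |p w| ≤ C * Real.exp w) (κ a b : ℝ) : IntervalIntegrable (fun w => D p κ w ^ 2) volume a b := by
  obtain ⟨C, hC0, hC⟩ := hp
  refine ii_of_le ((D_meas hm κ).pow_const 2)
    (g := fun w => (Real.exp (-(w / 2)) * (C * Real.exp (w + κ) + C * Real.exp w)) ^ 2)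
    (by fun_prop) (fun x => ?_) a b
  rw [abs_of_nonneg (sq_nonneg _), ← sq_abs]
  refine pow_le_pow_left₀ (abs_nonneg _) ?_ 2
  unfold D
  rw [abs_mul, abs_of_pos (Real.exp_pos _)]
  have h1 := hC (x + κ)
  have h2 := hC x
  have h3 : |p (x + κ) - p x| ≤ |p (x + κ)| + |p x| := abs_sub _ _
  gcongr
  linarith

theorem tele (p : ℝ → ℝ) (κ v : ℝ) (i : ℕ) :
    p (v + i * κ) = p v + ∑ m ∈ Finset.range i, Real.exp ((v + m * κ) / 2) * D p κ (v + m * κ) := by
  induction i with
  | zero => simp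
  | succ i ih =>
    rw [Finset.sum_range_succ, ← add_assoc, ← ih]
    unfold D
    have e : Real.exp ((v + i * κ) / 2) * Real.exp (-((v + i * κ) / 2)) = 1 := by
      rw [← Real.exp_add]; simp
    have e2 : v + i * κ + κ = v + (i + 1 : ℕ) * κ := by push_cast; ring
    rw [e2]
    linear_combination (p (v + i * κ) - p (v + (i + 1 : ℕ) * κ)) * e

theorem ph_sq_le (p : ℝ → ℝ) {κ : ℝ} (hκ : 0 ≤ κ) (v : ℝ) {i N : ℕ} (hi : i ≤ N) :
    p (v + i * κ) ^ 2 ≤ 2 * p v ^ 2 +
      2 * (N * Real.exp (v + N * κ)) * ∑ m ∈ Finset.range N, D p κ (v + m * κ) ^ 2 := by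
  set S := ∑ m ∈ Finset.range i, Real.exp ((v + m * κ) / 2) * D p κ (v + m * κ) with hS
  have h1 : S ^ 2 ≤ (∑ m ∈ Finset.range i, Real.exp ((v + m * κ) / 2) ^ 2) *
      ∑ m ∈ Finset.range i, D p κ (v + m * κ) ^ 2 := Finset.sum_mul_sq_le_sq_mul_sq _ _ _
  have h2 : ∑ m ∈ Finset.range i, Real.exp ((v + m * κ) / 2) ^ 2 ≤ N * Real.exp (v + N * κ) := by
    calc ∑ m ∈ Finset.range i, Real.exp ((v + m * κ) / 2) ^ 2
        ≤ ∑ m ∈ Finset.range i, Real.exp (v + N * κ) := by
          refine Finset.sum_le_sum fun m hm => ?_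
          rw [← Real.exp_nat_mul]
          refine Real.exp_le_exp.2 ?_
          have h3 : (m : ℝ) ≤ N := by
            have := Finset.mem_range.1 hm
            exact_mod_cast (by omega : m ≤ N)
          push_cast
          nlinarith
      _ = i * Real.exp (v + N * κ) := by simp
      _ ≤ N * Real.exp (v + N * κ) := by
          have : (i : ℝ) ≤ N := by exact_mod_cast hi
          gcongr
  have h3 : ∑ m ∈ Finset.range i, D p κ (v + m * κ) ^ 2 ≤ ∑ m ∈ Finset.range N, D p κ (v + m * κ) ^ 2 :=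
    Finset.sum_le_sum_of_subset_of_nonneg (Finset.range_mono hi) fun _ _ _ => sq_nonneg _
  have h4 : S ^ 2 ≤ (N * Real.exp (v + N * κ)) * ∑ m ∈ Finset.range N, D p κ (v + m * κ) ^ 2 := by
    refine h1.trans (mul_le_mul h2 h3 (Finset.sum_nonneg fun _ _ => sq_nonneg _) (by positivity))
  rw [tele p, ← hS]
  nlinarith [sq_nonneg (p v - S)]

theorem sum_shift {f : ℝ → ℝ} (hf : ∀ a b, IntervalIntegrable f volume a b) (L κ : ℝ) (N : ℕ) :
    ∑ m ∈ Finset.range N, ∫ v in L..(L + κ), f (v + m * κ) = ∫ u in L..(L + N * κ), f u := by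
  have h := intervalIntegral.sum_integral_adjacent_intervals (f := f) (μ := volume)
    (a := fun k : ℕ => L + k * κ) (n := N) fun k _ => hf _ _
  simp only [Nat.cast_zero, zero_mul, add_zero] at h
  rw [← h]
  refine Finset.sum_congr rfl fun m _ => ?_
  rw [intervalIntegral.integral_comp_add_right]
  congr 1
  push_cast
  ring

theorem block {p : ℝ → ℝ} (hm : Measurable p) (hp : ∃ C : ℝ, 0 ≤ C ∧ ∀ w : ℝ, |p w| ≤ C * Real.exp w) {κ L : ℝ} (hκ : 0 < κ) (N : ℕ) {C1 : ℝ} (hC1 : ∀ w, |p w| ≤ C1 * Real.exp w) :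
    ∫ w in L..(L + N * κ), p w ^ 2 ≤ N * (2 * κ * (C1 * Real.exp (L + κ)) ^ 2 +
      2 * (N * Real.exp (L + κ + N * κ)) * ∫ u in L..(L + N * κ), D p κ u ^ 2) := by
  have hle : L ≤ L + κ := by linarith
  have hshift : ∀ (g : ℝ → ℝ) (d : ℝ), (∀ a b, IntervalIntegrable g volume a b) → ∀ a b,
      IntervalIntegrable (fun v => g (v + d)) volume a b := by
    intro g d hg a b
    have := (hg (a + d) (b + d)).comp_add_right d
    simpa using this
  rw [← sum_shift (f := fun w => p w ^ 2) (ph_sq_ii hm hp) L κ N]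
  have key : ∀ i ∈ Finset.range N, ∫ v in L..(L + κ), p (v + i * κ) ^ 2 ≤
      2 * κ * (C1 * Real.exp (L + κ)) ^ 2 +
      2 * (N * Real.exp (L + κ + N * κ)) * ∫ u in L..(L + N * κ), D p κ u ^ 2 := by
    intro i hi
    have hi' := Finset.mem_range.1 hi
    have hsi : ∀ m : ℕ, IntervalIntegrable (fun v => D p κ (v + m * κ) ^ 2) volume L (L + κ) := fun m =>
      hshift (fun w => D p κ w ^ 2) (m * κ) (D_sq_ii hm hp κ) _ _
    have hsum : IntervalIntegrable (fun v => ∑ m ∈ Finset.range N, D p κ (v + m * κ) ^ 2) volume L (L + κ) := by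
      have := IntervalIntegrable.sum (Finset.range N) (f := fun (m : ℕ) v => D p κ (v + m * κ) ^ 2)
        (μ := volume) (a := L) (b := L + κ) fun m _ => hsi m
      have e : (∑ m ∈ Finset.range N, fun v : ℝ => D p κ (v + (m : ℝ) * κ) ^ 2) =
          fun v : ℝ => ∑ m ∈ Finset.range N, D p κ (v + m * κ) ^ 2 := by
        funext v
        simp
      rw [← e]
      exact this
    have hint2 : IntervalIntegrable (fun v => 2 * (C1 * Real.exp (L + κ)) ^ 2 +
        2 * (N * Real.exp (L + κ + N * κ)) * ∑ m ∈ Finset.range N, D p κ (v + m * κ) ^ 2) volume L (L + κ) :=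
      intervalIntegrable_const.add (hsum.const_mul _)
    calc ∫ v in L..(L + κ), p (v + i * κ) ^ 2 ≤ ∫ v in L..(L + κ), (2 * (C1 * Real.exp (L + κ)) ^ 2 +
        2 * (N * Real.exp (L + κ + N * κ)) * ∑ m ∈ Finset.range N, D p κ (v + m * κ) ^ 2) := by
          refine intervalIntegral.integral_mono_on hle (hshift (fun w => p w ^ 2) (i * κ) (ph_sq_ii hm hp) _ _)
            hint2 fun v hv => ?_
          refine (ph_sq_le p hκ.le v hi'.le).trans ?_
          have h1 : p v ^ 2 ≤ (C1 * Real.exp (L + κ)) ^ 2 := by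
            rw [← sq_abs]
            refine pow_le_pow_left₀ (abs_nonneg _) ((hC1 v).trans ?_) 2
            have hC0 : 0 ≤ C1 := by
              have := (abs_nonneg _).trans (hC1 0)
              simpa using this
            have := Real.exp_le_exp.2 hv.2
            gcongr
          have h2 : Real.exp (v + N * κ) ≤ Real.exp (L + κ + N * κ) := by
            refine Real.exp_le_exp.2 ?_
            linarith [hv.2]
          have h3 : 0 ≤ ∑ m ∈ Finset.range N, D p κ (v + m * κ) ^ 2 :=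
            Finset.sum_nonneg fun _ _ => sq_nonneg _
          gcongr
      _ = _ := by
          rw [intervalIntegral.integral_add intervalIntegrable_const (hsum.const_mul _),
            intervalIntegral.integral_const, intervalIntegral.integral_const_mul,
            intervalIntegral.integral_finsetSum (fun m _ => hsi m),
            sum_shift (f := fun w => D p κ w ^ 2) (D_sq_ii hm hp κ)]
          rw [smul_eq_mul]
          ring
  refine (Finset.sum_le_sum key).trans (le_of_eq ?_)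
  rw [Finset.sum_const, Finset.card_range, nsmul_eq_mul]



theorem kT_le {T : ℝ} (hT : 0 < T) : kT T ≤ 1 / T := by
  unfold kT
  have h : 0 < 1 / T := by positivity
  have := Real.log_le_sub_one_of_pos (show 0 < 1 + 1 / T by linarith)
  linarith

theorem le_kT {T : ℝ} (hT : 1 ≤ T) : 1 / (2 * T) ≤ kT T := by
  unfold kT
  have hT0 : 0 < T := by linarith
  have h : 0 < 1 / T := by positivity
  have h1 := Real.one_sub_inv_le_log_of_pos (show 0 < 1 + 1 / T by linarith)
  refine le_trans ?_ h1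
  have e : 1 - (1 + 1 / T)⁻¹ = 1 / (T + 1) := by
    field_simp
    ring
  rw [e]
  exact one_div_le_one_div_of_le (by linarith) (by linarith)

/-- the bound for one unit piece -/
theorem piece {p : ℝ → ℝ} (hm : Measurable p) (hp : ∃ C : ℝ, 0 ≤ C ∧ ∀ w : ℝ, |p w| ≤ C * Real.exp w) {b : ℝ} (hb : 1 < b)
    (h : ∃ C : ℝ, ∀ᶠ T : ℝ in atTop,
      T / Real.log T ^ 2 * ∫ u in (0 : ℝ)..(b * Real.log T), D p (kT T) u ^ 2 ≤ C) :
    ∃ K : ℝ, 0 ≤ K ∧ ∀ᶠ j : ℕ in atTop,
      ∫ w in (j : ℝ)..(j + 1), p w ^ 2 ≤ K * (((j : ℝ) + 2) ^ 4 * Real.exp ((1 + 1 / b) * (j + 2))) := by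
  obtain ⟨C, hC⟩ := h
  obtain ⟨C1, hC10, hC1⟩ := id hp
  have hb0 : 0 < b := by linarith
  have ht : Tendsto (fun j : ℕ => Real.exp (((j : ℝ) + 2) / b)) atTop atTop := by
    refine Real.tendsto_exp_atTop.comp ?_
    refine Tendsto.atTop_div_const hb0 ?_
    exact tendsto_atTop_add_const_right _ _ tendsto_natCast_atTop_atTop
  refine ⟨2 * C1 ^ 2 * Real.exp 2 + 8 * |C| * Real.exp 1, by positivity, ?_⟩
  have hev2 : ∀ᶠ j : ℕ in atTop, 2 / (b - 1) ≤ (j : ℝ) :=
    tendsto_natCast_atTop_atTop.eventually_ge_atTop _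
  filter_upwards [ht.eventually hC, hev2] with j hj hj2
  set B : ℝ := (j : ℝ) + 2 with hB
  set L : ℝ := B / b with hL
  set κ : ℝ := kT (Real.exp L) with hκ
  have hκ0 : 0 < κ := kT_pos (Real.exp_pos _)
  have hB2 : 2 ≤ B := by rw [hB]; have : (0 : ℝ) ≤ j := Nat.cast_nonneg j; linarith
  have hL0 : 0 < L := by rw [hL]; positivity
  have hκe : κ ≤ Real.exp (-L) := by
    have := kT_le (Real.exp_pos L)
    rwa [one_div, ← Real.exp_neg] at this
  have hκ1 : κ ≤ 1 := hκe.trans (Real.exp_le_one_iff.2 (by linarith))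
  have hκ2 : Real.exp (-L) ≤ 2 * κ := by
    have := le_kT (Real.one_le_exp hL0.le)
    rw [← hκ] at this
    have e : 1 / (2 * Real.exp L) = Real.exp (-L) / 2 := by
      rw [Real.exp_neg]
      field_simp
    rw [e] at this
    linarith
  have hbL : b * L = B := by rw [hL]; field_simp
  rw [Real.log_exp] at hj
  set N : ℕ := ⌊(b - 1) * L / κ⌋₊ with hN
  have hN1 : (N : ℝ) ≤ (b - 1) * L / κ := Nat.floor_le (by
    have : 0 < b - 1 := by linarith
    positivity)
  have hN2 : (b - 1) * L / κ < N + 1 := Nat.lt_floor_add_one _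
  have hNκ : N * κ ≤ (b - 1) * L := by
    rwa [le_div_iff₀ hκ0] at hN1
  have hNκ2 : (b - 1) * L < N * κ + κ := by
    rw [div_lt_iff₀ hκ0] at hN2
    linarith
  have hend : L + N * κ ≤ b * L := by linarith
  have hI : ∫ u in L..(L + N * κ), D p κ u ^ 2 ≤ |C| * (Real.exp (-L) * L ^ 2) := by
    calc ∫ u in L..(L + N * κ), D p κ u ^ 2 ≤ ∫ u in (0 : ℝ)..(b * L), D p κ u ^ 2 := by
          refine intervalIntegral.integral_mono_interval hL0.le ?_ hend ?_ (D_sq_ii hm hp κ _ _)
          · have : (0 : ℝ) ≤ N * κ := by positivity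
            linarith
          · exact Eventually.of_forall fun _ => sq_nonneg _
      _ = (Real.exp L / L ^ 2 * ∫ u in (0 : ℝ)..(b * L), D p κ u ^ 2) * (Real.exp (-L) * L ^ 2) := by
          have e : Real.exp L * Real.exp (-L) = 1 := by rw [← Real.exp_add]; simp
          have e2 : L ^ 2 / L ^ 2 = 1 := div_self (by positivity)
          calc ∫ u in (0 : ℝ)..(b * L), D p κ u ^ 2 = (Real.exp L * Real.exp (-L)) * (L ^ 2 / L ^ 2) * ∫ u in (0 : ℝ)..(b * L), D p κ u ^ 2 := by
                rw [e, e2]; ring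
            _ = _ := by ring
      _ ≤ C * (Real.exp (-L) * L ^ 2) := by gcongr
      _ ≤ |C| * (Real.exp (-L) * L ^ 2) := by gcongr; exact le_abs_self C
  have hjL : L ≤ j := by
    rw [hL, div_le_iff₀ hb0, hB]
    have h1 : 0 < b - 1 := by linarith
    rw [div_le_iff₀ h1] at hj2
    linarith
  have hj1 : (j : ℝ) + 1 ≤ L + N * κ := by
    have : b * L = (j : ℝ) + 2 := by rw [hbL]
    linarith
  have h1 : ∫ w in (j : ℝ)..(j + 1), p w ^ 2 ≤ ∫ w in L..(L + N * κ), p w ^ 2 := by
    refine intervalIntegral.integral_mono_interval hjL (by linarith) hj1 ?_ (ph_sq_ii hm hp _ _)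
    exact Eventually.of_forall fun _ => sq_nonneg _
  refine h1.trans ((block hm hp hκ0 N hC1).trans ?_)
  -- numerical bounds
  have hNb : (N : ℝ) ≤ 2 * B * Real.exp L := by
    have e : Real.exp L * Real.exp (-L) = 1 := by rw [← Real.exp_add]; simp
    have h3 : 1 ≤ 2 * Real.exp L * κ := by
      calc 1 = Real.exp L * Real.exp (-L) := e.symm
        _ ≤ Real.exp L * (2 * κ) := by gcongr
        _ = _ := by ring
    refine hN1.trans ?_
    rw [div_le_iff₀ hκ0]
    have h4 : (b - 1) * L ≤ B := by rw [← hbL]; nlinarith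
    calc (b - 1) * L ≤ B * 1 := by linarith
      _ ≤ B * (2 * Real.exp L * κ) := by gcongr
      _ = _ := by ring
  have hNκB : N * κ ≤ B := by
    refine hNκ.trans ?_
    rw [← hbL]; nlinarith
  have e1 : Real.exp (L + κ + N * κ) ≤ Real.exp 1 * Real.exp B := by
    rw [← Real.exp_add]
    refine Real.exp_le_exp.2 ?_
    linarith
  have e2 : Real.exp (L + κ) ^ 2 ≤ Real.exp 2 * Real.exp (L + L) := by
    rw [← Real.exp_add, ← Real.exp_nat_mul]
    refine Real.exp_le_exp.2 ?_
    push_cast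
    linarith
  have hLB : L ≤ B := by rw [← hbL]; nlinarith
  have e3 : Real.exp (L + L) ≤ Real.exp (B + L) := Real.exp_le_exp.2 (by linarith)
  have e4 : Real.exp ((1 + 1 / b) * B) = Real.exp (B + L) := by
    congr 1
    rw [hL]
    field_simp
  have hI0 : 0 ≤ ∫ u in L..(L + N * κ), D p κ u ^ 2 := by
    refine intervalIntegral.integral_nonneg ?_ fun _ _ => sq_nonneg _
    have : (0 : ℝ) ≤ N * κ := by positivity
    linarith
  have hpow : B ≤ B ^ 4 := by
    calc B = B ^ 1 := (pow_one B).symm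
      _ ≤ B ^ 4 := pow_le_pow_right₀ (by linarith) (by norm_num)
  have t1 : N * (2 * κ * (C1 * Real.exp (L + κ)) ^ 2) ≤
      (2 * C1 ^ 2 * Real.exp 2) * (B ^ 4 * Real.exp (B + L)) := by
    calc N * (2 * κ * (C1 * Real.exp (L + κ)) ^ 2) = (N * κ) * (2 * C1 ^ 2 * Real.exp (L + κ) ^ 2) := by ring
      _ ≤ B ^ 4 * (2 * C1 ^ 2 * (Real.exp 2 * Real.exp (B + L))) := by
          refine mul_le_mul (hNκB.trans hpow) ?_ (by positivity) (by positivity)
          have := e2.trans (mul_le_mul_of_nonneg_left e3 (Real.exp_pos 2).le)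
          gcongr
      _ = _ := by ring
  have t2 : N * (2 * (N * Real.exp (L + κ + N * κ)) * ∫ u in L..(L + N * κ), D p κ u ^ 2) ≤
      (8 * |C| * Real.exp 1) * (B ^ 4 * Real.exp (B + L)) := by
    calc N * (2 * (N * Real.exp (L + κ + N * κ)) * ∫ u in L..(L + N * κ), D p κ u ^ 2)
        ≤ (2 * B * Real.exp L) * (2 * ((2 * B * Real.exp L) * (Real.exp 1 * Real.exp B)) * (|C| * (Real.exp (-L) * L ^ 2))) := by
          gcongr
      _ = (8 * |C| * Real.exp 1) * ((B ^ 2 * L ^ 2) * (Real.exp B * Real.exp L * (Real.exp L * Real.exp (-L)))) := by ring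
      _ = (8 * |C| * Real.exp 1) * ((B ^ 2 * L ^ 2) * Real.exp (B + L)) := by
          rw [← Real.exp_add L, add_neg_cancel, Real.exp_zero, mul_one, ← Real.exp_add]
      _ ≤ _ := by
          have : B ^ 2 * L ^ 2 ≤ B ^ 4 := by
            calc B ^ 2 * L ^ 2 ≤ B ^ 2 * B ^ 2 := by gcongr
              _ = B ^ 4 := by ring
          gcongr
  rw [e4]
  rw [mul_add, add_mul]
  exact add_le_add t1 t2

/-- J6a -/
theorem L2_of {p : ℝ → ℝ} (hm : Measurable p) (hp : ∃ C : ℝ, 0 ≤ C ∧ ∀ w : ℝ, |p w| ≤ C * Real.exp w)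
    (h : ∀ b : ℝ, 1 < b → ∃ C : ℝ, ∀ᶠ T : ℝ in atTop,
      T / Real.log T ^ 2 * ∫ u in (0 : ℝ)..(b * Real.log T), D p (kT T) u ^ 2 ≤ C) :
    ∀ θ : ℝ, 1 < θ → IntegrableOn (fun w => p w ^ 2 * Real.exp (-(θ * w))) (Ioi 0) := by
  intro θ hθ
  -- choose b
  obtain ⟨b, hb, hbθ⟩ : ∃ b : ℝ, 1 < b ∧ 1 + 1 / b < θ := by
    refine ⟨2 / (θ - 1) + 1, ?_, ?_⟩
    · have : 0 < 2 / (θ - 1) := div_pos two_pos (by linarith)
      linarith
    · have h0 : 0 < θ - 1 := by linarith
      have h1 : 0 < 2 / (θ - 1) := div_pos two_pos h0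
      have h2 : 1 / (2 / (θ - 1) + 1) < 1 / (2 / (θ - 1)) := one_div_lt_one_div_of_lt h1 (by linarith)
      have h3 : 1 / (2 / (θ - 1)) = (θ - 1) / 2 := by rw [one_div_div]
      linarith
  obtain ⟨K, hK0, hK⟩ := piece hm hp hb (h b hb)
  obtain ⟨j0, hj0⟩ := eventually_atTop.1 hK
  set δ : ℝ := θ - (1 + 1 / b) with hδ
  have hδ0 : 0 < δ := by rw [hδ]; linarith
  set f : ℝ → ℝ := fun w => p w ^ 2 * Real.exp (-(θ * w)) with hf
  have hf0 : ∀ w, 0 ≤ f w := fun w => by rw [hf]; positivity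
  have hfi : ∀ a b, IntervalIntegrable f volume a b := by
    intro a b
    exact (ph_sq_ii hm hp a b).mul_continuousOn (by fun_prop)
  set a : ℕ → ℝ := fun j => K * Real.exp (2 * θ) * (((j + 2 : ℕ) : ℝ) ^ 4 * Real.exp (-δ * ((j + 2 : ℕ) : ℝ)))
    with ha
  have ha0 : ∀ j, 0 ≤ a j := fun j => by rw [ha]; positivity
  have hsum : Summable a := by
    refine Summable.mul_left _ ?_
    exact (summable_nat_add_iff (f := fun n : ℕ => (n : ℝ) ^ 4 * Real.exp (-δ * (n : ℝ))) 2).2
      (Real.summable_pow_mul_exp_neg_nat_mul 4 hδ0)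
  have hpiece : ∀ j : ℕ, j0 ≤ j → ∫ w in (j : ℝ)..(j + 1), f w ≤ a j := by
    intro j hj
    have h1 := hj0 j hj
    calc ∫ w in (j : ℝ)..(j + 1), f w ≤ ∫ w in (j : ℝ)..(j + 1), p w ^ 2 * Real.exp (-(θ * j)) := by
          refine intervalIntegral.integral_mono_on (by linarith) (hfi _ _)
            ((ph_sq_ii hm hp _ _).mul_const _) fun w hw => ?_
          have : Real.exp (-(θ * w)) ≤ Real.exp (-(θ * j)) := by
            refine Real.exp_le_exp.2 ?_
            have := hw.1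
            nlinarith
          exact mul_le_mul_of_nonneg_left this (sq_nonneg _)
      _ = (∫ w in (j : ℝ)..(j + 1), p w ^ 2) * Real.exp (-(θ * j)) := by
          rw [intervalIntegral.integral_mul_const]
      _ ≤ (K * (((j : ℝ) + 2) ^ 4 * Real.exp ((1 + 1 / b) * (j + 2)))) * Real.exp (-(θ * j)) := by
          gcongr
      _ = a j := by
          rw [ha]
          have e1 : Real.exp ((1 + 1 / b) * ((j : ℝ) + 2)) * Real.exp (-(θ * j)) =
              Real.exp (2 * θ) * Real.exp (-δ * ((j + 2 : ℕ) : ℝ)) := by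
            rw [← Real.exp_add, ← Real.exp_add, hδ]
            congr 1
            push_cast
            ring
          have e2 : (((j + 2 : ℕ) : ℝ)) = (j : ℝ) + 2 := by push_cast; ring
          simp only
          rw [e2] at e1 ⊢
          linear_combination (K * ((j : ℝ) + 2) ^ 4) * e1
  have hbd : ∀ n : ℕ, j0 ≤ n → ∫ w in (0 : ℝ)..n, f w ≤ (∫ w in (0 : ℝ)..j0, f w) + ∑ j ∈ Finset.range n, a j := by
    intro n hn
    induction n, hn using Nat.le_induction with
    | base =>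
      have : 0 ≤ ∑ j ∈ Finset.range j0, a j := Finset.sum_nonneg fun j _ => ha0 j
      linarith
    | succ n hn ih =>
      rw [← intervalIntegral.integral_add_adjacent_intervals (hfi 0 n) (hfi n ((n + 1 : ℕ) : ℝ)),
        Finset.sum_range_succ]
      have h1 := hpiece n hn
      have e : (((n + 1 : ℕ) : ℝ)) = (n : ℝ) + 1 := by push_cast; ring
      rw [e]
      linarith
  refine integrableOn_Ioi_of_intervalIntegral_norm_bounded ((∫ w in (0 : ℝ)..j0, f w) + ∑' j, a j) 0
    (l := atTop) (b := fun n : ℕ => (n : ℝ)) (fun n => ?_) tendsto_natCast_atTop_atTop ?_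
  · exact (hfi 0 n).1
  · filter_upwards [eventually_ge_atTop j0] with n hn
    have e : ∫ x in (0 : ℝ)..n, ‖f x‖ = ∫ x in (0 : ℝ)..n, f x := by
      refine intervalIntegral.integral_congr fun x _ => ?_
      exact Real.norm_of_nonneg (hf0 x)
    rw [e]
    refine (hbd n hn).trans ?_
    have := hsum.sum_le_tsum (Finset.range n) fun j _ => ha0 j
    linarith


open Pool.Agent.Q260.GX
open Pool.Agent.Q253.HV (psiC)

theorem psiC_norm_le {q : ℕ} (χ : DirichletCharacter ℂ q) (x : ℝ) : ‖psiC χ x‖ ≤ Chebyshev.psi x := by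
  unfold psiC Chebyshev.psi
  refine (norm_sum_le _ _).trans ?_
  refine Finset.sum_le_sum fun k _ => ?_
  rw [norm_mul, Complex.norm_real, Real.norm_of_nonneg ArithmeticFunction.vonMangoldt_nonneg]
  exact mul_le_of_le_one_right ArithmeticFunction.vonMangoldt_nonneg (χ.norm_le_one _)

theorem psiC_meas {q : ℕ} (χ : DirichletCharacter ℂ q) : Measurable (psiC χ) := by
  have : psiC χ = (fun n : ℕ => ∑ n ∈ Finset.Icc 1 n, ((ArithmeticFunction.vonMangoldt n : ℝ) : ℂ) * χ (n : ZMod q)) ∘ (fun x : ℝ => ⌊x⌋₊) := by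
    funext x
    rfl
  rw [this]
  exact (measurable_from_top).comp Nat.measurable_floor

theorem psiS_meas {q : ℕ} (S : Finset (DirichletCharacter ℂ q)) : Measurable (psiS S) := by
  unfold psiS
  refine Complex.measurable_re.comp ?_
  exact Finset.measurable_fun_sum S fun χ _ => psiC_meas χ

theorem dat_ph_meas {q : ℕ} [NeZero q] (S : Finset (DirichletCharacter ℂ q)) : Measurable (dat S).ph := by
  show Measurable fun w => psiS S (Real.exp w) - (∑ χ ∈ S, dl χ) * Real.exp w
  exact ((psiS_meas S).comp Real.measurable_exp).sub (Real.measurable_exp.const_mul _)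

theorem dat_ph_le {q : ℕ} [NeZero q] (S : Finset (DirichletCharacter ℂ q)) :
    ∃ C : ℝ, 0 ≤ C ∧ ∀ w : ℝ, |(dat S).ph w| ≤ C * Real.exp w := by
  refine ⟨S.card * (Real.log 4 + 4) + |∑ χ ∈ S, dl χ|, by positivity, fun w => ?_⟩
  show |psiS S (Real.exp w) - (∑ χ ∈ S, dl χ) * Real.exp w| ≤ _
  have h1 : |psiS S (Real.exp w)| ≤ S.card * ((Real.log 4 + 4) * Real.exp w) := by
    unfold psiS
    refine (Complex.abs_re_le_norm _).trans ((norm_sum_le _ _).trans ?_)
    rw [← nsmul_eq_mul]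
    refine Finset.sum_le_card_nsmul _ _ _ fun χ _ => ?_
    exact (psiC_norm_le χ _).trans (Chebyshev.psi_le_const_mul_self (Real.exp_pos w).le)
  have h2 : |(∑ χ ∈ S, dl χ) * Real.exp w| = |∑ χ ∈ S, dl χ| * Real.exp w := by
    rw [abs_mul, abs_of_pos (Real.exp_pos w)]
  calc _ ≤ |psiS S (Real.exp w)| + |(∑ χ ∈ S, dl χ) * Real.exp w| := abs_sub _ _
    _ ≤ S.card * ((Real.log 4 + 4) * Real.exp w) + |∑ χ ∈ S, dl χ| * Real.exp w := by
      rw [h2]; linarith
    _ = _ := by ring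

/-- GX-L2U -/
theorem t_L2U : S_L2U := by
  intro q _ S h
  refine L2_of (dat_ph_meas S) (dat_ph_le S) fun b hb => ?_
  exact h b hb.le

end

end Pool.Agent.Q237.GX
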