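import Pool.Agent.Q237.GX.GRS
import Pool.Agent.Q237.GX.Cells
import Pool.Agent.H370R2.Dyadic

set_option autoImplicit false

/-! # Project GX: zeros of `L(s, χ)` in terms of the primitive character -/

namespace Pool.Agent.Q237.GX

open MeasureTheory Filter Topology Set Complex DirichletCharacter
open Pool.Agent.Q260.GX
open H370 (zset mult NN Zf GoodL)

noncomputable section

variable {q : ℕ} [NeZero q]

theorem cond_ne (χ : DirichletCharacter ℂ q) : NeZero χ.conductor := ⟨by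
  intro h0
  have := χ.conductor_dvd_level
  rw [h0, zero_dvd_iff] at this
  exact NeZero.ne q this⟩

theorem euler_an {p : ℕ} (hp : p.Prime) (c s : ℂ) : AnalyticAt ℂ (fun z : ℂ => 1 - c * (p : ℂ) ^ (-z)) s := by
  have hp0 : (p : ℂ) ≠ 0 := by exact_mod_cast hp.ne_zero
  have h1 : Differentiable ℂ fun z : ℂ => 1 - c * (p : ℂ) ^ (-z) := by
    intro z
    refine DifferentiableAt.const_sub ?_ _
    refine DifferentiableAt.const_mul ?_ _
    exact (differentiableAt_id.neg).const_cpow (Or.inl hp0)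
  exact h1.analyticAt s

/-- the orders of the zeros agree with those of the primitive character -/
theorem ord_eq (χ : DirichletCharacter ℂ q) [NeZero χ.conductor] {s : ℂ} (hs : 0 < s.re) (hs1 : s ≠ 1) :
    analyticOrderAt (LFunction χ) s = analyticOrderAt (LFunction χ.primitiveCharacter) s := by
  set E : ℂ → ℂ := fun z => ∏ p ∈ q.primeFactors, (1 - χ.primitiveCharacter p * (p : ℂ) ^ (-z)) with hE
  have h1 : LFunction χ =ᶠ[𝓝 s] LFunction χ.primitiveCharacter * E := by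
    filter_upwards [isOpen_ne.mem_nhds hs1] with z hz
    have h := LFunction_changeLevel (χ.conductor_dvd_level) χ.primitiveCharacter (s := z) (Or.inr hz)
    rw [changeLevel_primitiveCharacter] at h
    rw [h]
    rfl
  have hEa : AnalyticAt ℂ E s := by
    rw [hE]
    exact Finset.analyticAt_fun_prod _ fun p hp => euler_an (Nat.prime_of_mem_primeFactors hp) _ _
  have hE0 : E s ≠ 0 := by
    rw [hE]
    refine Finset.prod_ne_zero_iff.2 fun p hp => ?_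
    exact Pool.Agent.Q162.HV.euler_ne _ (Nat.prime_of_mem_primeFactors hp) hs
  have hLa : AnalyticAt ℂ (LFunction χ.primitiveCharacter) s := H370.DL.analyticAt_L hs1
  rw [analyticOrderAt_congr h1, analyticOrderAt_mul hLa hEa, hEa.analyticOrderAt_eq_zero.2 hE0, add_zero]

theorem zset_eq (χ : DirichletCharacter ℂ q) [NeZero χ.conductor] (a b : ℝ) :
    zset (LFunction χ) a b = zset (LFunction χ.primitiveCharacter) a b := by
  ext s
  constructor
  · rintro ⟨h1, h2, h3, h4, h5⟩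
    refine ⟨h1, h2, h3, h4, ?_⟩
    refine (Pool.Agent.Q162.HV.level_iff χ h1 ?_).1 h5
    rintro rfl
    simp at h2
  · rintro ⟨h1, h2, h3, h4, h5⟩
    refine ⟨h1, h2, h3, h4, ?_⟩
    refine (Pool.Agent.Q162.HV.level_iff χ h1 ?_).2 h5
    rintro rfl
    simp at h2

theorem fin_abs (χ : DirichletCharacter ℂ q) (T : ℝ) :
    {s : ℂ | s ∈ (Icc (0 : ℝ) 1 ×ℂ Icc (-T) T) ∧ LFunction χ s = 0}.Finite := by
  refine H370.finite_zeros_compact (fun s hs => H370.DL.analyticAt_L hs) ?_ ?_ (isCompact_Icc.reProdIm isCompact_Icc)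
  · exact LFunction_ne_zero_of_one_le_re χ (Or.inr (by norm_num)) (by simp)
  · have h0 : Gc χ 1 ≠ 0 := by
      rcases eq_or_ne χ 1 with rfl | h1
      · rw [Gc_one]
        exact LFunctionTrivChar₁_apply_one_ne_zero q
      · rw [Gc_ne h1]
        exact LFunction_ne_zero_of_one_le_re χ (Or.inl h1) (by simp)
    have h2 : ∀ᶠ s in 𝓝 (1 : ℂ), Gc χ s ≠ 0 := (Gc_diff χ).continuous.continuousAt.eventually_ne h0
    have h3 : ∀ᶠ s in 𝓝[≠] (1 : ℂ), Gc χ s ≠ 0 := h2.filter_mono nhdsWithin_le_nhds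
    filter_upwards [h3, self_mem_nhdsWithin] with s hs hs1
    exact L_ne_of_Gc hs1 hs

/-- finitely many zeros up to height `T` -/
theorem fin_ZC (χ : DirichletCharacter ℂ q) (T : ℝ) : {ρ : ZC χ | |(ρ : ℂ).im| ≤ T}.Finite := by
  have h := (fin_abs χ T).preimage (f := fun ρ : ZC χ => (ρ : ℂ)) (Subtype.val_injective.injOn)
  refine h.subset fun ρ hρ => ?_
  have h1 : -T ≤ (ρ : ℂ).im ∧ (ρ : ℂ).im ≤ T := abs_le.1 hρ
  exact ⟨⟨⟨ρ.2.2.1.le, ρ.2.2.2.le⟩, ⟨h1.1, h1.2⟩⟩, ρ.2.1⟩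

theorem fin_AC (χ : DirichletCharacter ℂ q) (T : ℝ) : {ρ : ZC χ | 0 ≤ (ρ : ℂ).im ∧ (ρ : ℂ).im ≤ T}.Finite :=
  (fin_ZC χ T).subset fun ρ hρ => by
    show |(ρ : ℂ).im| ≤ T
    rw [abs_of_nonneg hρ.1]
    exact hρ.2

theorem fin_W (χ : DirichletCharacter ℂ q) (a b : ℝ) : {ρ : ZC χ | a < (ρ : ℂ).im ∧ (ρ : ℂ).im ≤ b}.Finite :=
  (fin_ZC χ (max |a| |b|)).subset fun ρ hρ => by
    show |(ρ : ℂ).im| ≤ _
    rw [abs_le]
    have h1 := neg_abs_le a
    have h2 := le_abs_self b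
    have h3 := le_max_left |a| |b|
    have h4 := le_max_right |a| |b|
    exact ⟨by linarith [hρ.1], by linarith [hρ.2]⟩

/-- the zeros with ordinate in `[0, T]` -/
def AC (χ : DirichletCharacter ℂ q) (T : ℝ) : Finset (ZC χ) := (fin_AC χ T).toFinset

/-- the zeros with ordinate in `(a, b]` -/
def W (χ : DirichletCharacter ℂ q) (a b : ℝ) : Finset (ZC χ) := (fin_W χ a b).toFinset

theorem mem_AC {χ : DirichletCharacter ℂ q} {T : ℝ} {ρ : ZC χ} : ρ ∈ AC χ T ↔ 0 ≤ (ρ : ℂ).im ∧ (ρ : ℂ).im ≤ T := by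
  unfold AC
  rw [Set.Finite.mem_toFinset]
  rfl

theorem mem_W {χ : DirichletCharacter ℂ q} {a b : ℝ} {ρ : ZC χ} : ρ ∈ W χ a b ↔ a < (ρ : ℂ).im ∧ (ρ : ℂ).im ≤ b := by
  unfold W
  rw [Set.Finite.mem_toFinset]
  rfl

open Classical in
theorem AC_union (χ : DirichletCharacter ℂ q) {a b : ℝ} (h0 : 0 ≤ a) (h : a ≤ b) : AC χ b = AC χ a ∪ W χ a b := by
  ext ρ
  rw [Finset.mem_union, mem_AC, mem_AC, mem_W]
  constructor
  · rintro ⟨h1, h2⟩
    rcases le_or_gt (ρ : ℂ).im a with h3 | h3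
    · exact Or.inl ⟨h1, h3⟩
    · exact Or.inr ⟨h3, h2⟩
  · rintro (⟨h1, h2⟩ | ⟨h1, h2⟩)
    · exact ⟨h1, h2.trans h⟩
    · exact ⟨by linarith, h2⟩

theorem AC_disj (χ : DirichletCharacter ℂ q) (a b : ℝ) : Disjoint (AC χ a) (W χ a b) := by
  rw [Finset.disjoint_left]
  intro ρ h1 h2
  rw [mem_AC] at h1
  rw [mem_W] at h2
  linarith [h1.2, h2.1]

open Classical in
theorem W_union (χ : DirichletCharacter ℂ q) {a b c : ℝ} (hab : a ≤ b) (hbc : b ≤ c) : W χ a c = W χ a b ∪ W χ b c := by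
  ext ρ
  rw [Finset.mem_union, mem_W, mem_W, mem_W]
  constructor
  · rintro ⟨h1, h2⟩
    rcases le_or_gt (ρ : ℂ).im b with h3 | h3
    · exact Or.inl ⟨h1, h3⟩
    · exact Or.inr ⟨h3, h2⟩
  · rintro (⟨h1, h2⟩ | ⟨h1, h2⟩)
    · exact ⟨h1, h2.trans hbc⟩
    · exact ⟨by linarith, h2⟩

theorem W_disj (χ : DirichletCharacter ℂ q) (a b c : ℝ) : Disjoint (W χ a b) (W χ b c) := by
  rw [Finset.disjoint_left]
  intro ρ h1 h2
  rw [mem_W] at h1 h2
  linarith [h1.2, h2.1]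

/-- multiplicity -/
def mC (χ : DirichletCharacter ℂ q) (ρ : ZC χ) : ℝ := (analyticOrderNatAt (LFunction χ) ρ : ℝ)

theorem mC_nonneg (χ : DirichletCharacter ℂ q) (ρ : ZC χ) : 0 ≤ mC χ ρ := Nat.cast_nonneg _

theorem ne_one (χ : DirichletCharacter ℂ q) (ρ : ZC χ) : (ρ : ℂ) ≠ 1 := by
  intro h
  have := ρ.2.2.2
  rw [h] at this
  simp at this

theorem mC_eq (χ : DirichletCharacter ℂ q) [NeZero χ.conductor] (ρ : ZC χ) :
    mC χ ρ = (mult (LFunction χ.primitiveCharacter) (ρ : ℂ) : ℝ) := by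
  unfold mC mult analyticOrderNatAt
  rw [ord_eq χ ρ.2.2.1 (ne_one χ ρ)]

theorem good (χ : DirichletCharacter ℂ q) [NeZero χ.conductor] : GoodL (LFunction χ.primitiveCharacter) :=
  H370.good_dirichlet χ.primitiveCharacter χ.primitiveCharacter_isPrimitive

/-- sums over the zeros with ordinate in `(a, b]` -/
theorem sum_W (χ : DirichletCharacter ℂ q) [NeZero χ.conductor] {M : Type*} [AddCommMonoid M] {a : ℝ} (ha : 1 ≤ a) (b : ℝ)
    (f : ℂ → M) : ∑ ρ ∈ W χ a b, f (ρ : ℂ) = ∑ s ∈ Zf (LFunction χ.primitiveCharacter) a b, f s := by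
  refine Finset.sum_nbij (fun ρ : ZC χ => (ρ : ℂ)) (fun ρ hρ => ?_) (fun ρ _ ρ' _ h => Subtype.ext h) (fun s hs => ?_)
    fun ρ _ => rfl
  · rw [H370.mem_Zf (good χ) ha, ← zset_eq]
    rw [mem_W] at hρ
    exact ⟨ρ.2.2.1, ρ.2.2.2, hρ.1, hρ.2, ρ.2.1⟩
  · have hs' := (H370.mem_Zf (good χ) ha).1 hs
    rw [← zset_eq] at hs'
    refine ⟨⟨s, hs'.2.2.2.2, hs'.1, hs'.2.1⟩, ?_, rfl⟩
    rw [Finset.mem_coe, mem_W]
    exact ⟨hs'.2.2.1, hs'.2.2.2.1⟩

theorem sum_W_NN (χ : DirichletCharacter ℂ q) [NeZero χ.conductor] {a : ℝ} (ha : 1 ≤ a) (b : ℝ) :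
    ∑ ρ ∈ W χ a b, mC χ ρ = (NN (LFunction χ.primitiveCharacter) a b : ℝ) := by
  rw [H370.NN_eq (good χ) ha, Finset.sum_congr rfl fun ρ _ => mC_eq χ ρ]
  push_cast
  exact sum_W χ ha b fun s => (mult (LFunction χ.primitiveCharacter) s : ℝ)

/-- finiteness for the data -/
theorem fin_dat (S : Finset (DirichletCharacter ℂ q)) (T : ℝ) : {i : (dat S).ι | |(dat S).ga i| ≤ T}.Finite := by
  have h : {i : (dat S).ι | |(dat S).ga i| ≤ T} = ⋃ χ : {χ : DirichletCharacter ℂ q // χ ∈ S},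
      (fun ρ : ZC χ.1 => (⟨χ, ρ⟩ : (dat S).ι)) '' {ρ : ZC χ.1 | |(ρ : ℂ).im| ≤ T} := by
    ext i
    constructor
    · intro hi
      exact Set.mem_iUnion.2 ⟨i.1, i.2, hi, rfl⟩
    · intro hi
      obtain ⟨χ, ρ, hρ, rfl⟩ := Set.mem_iUnion.1 hi
      exact hρ
  rw [h]
  exact Set.finite_iUnion fun χ => (fin_ZC χ.1 T).image _

theorem FZ_eq (S : Finset (DirichletCharacter ℂ q)) (T : ℝ) :
    (dat S).FZ T = (Finset.univ : Finset {χ : DirichletCharacter ℂ q // χ ∈ S}).sigma fun χ => AC χ.1 T := by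
  have hfin : {i : (dat S).ι | 0 ≤ (dat S).ga i ∧ (dat S).ga i ≤ T}.Finite :=
    (fin_dat S T).subset fun i hi => by
      show |(dat S).ga i| ≤ T
      rw [abs_of_nonneg hi.1]
      exact hi.2
  unfold Dat.FZ
  rw [dif_pos hfin]
  ext i
  rw [Set.Finite.mem_toFinset]
  constructor
  · intro h
    exact Finset.mem_sigma.2 ⟨Finset.mem_univ _, mem_AC.2 h⟩
  · intro h
    exact mem_AC.1 (Finset.mem_sigma.1 h).2

end

end Pool.Agent.Q237.GX
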